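import Pool.Agent.K6.H45.EA.Pr

set_option autoImplicit false
set_option maxHeartbeats 1000000

/-! # Averages of the singular factors over the differences of a fairly dense set -/

namespace Pool.Agent.K6.H45.EA

open Finset Filter Pool.Agent.H373R2.T7 Pool.Agent.W123.RP
open Pool.Agent.H197R2.PG (sum_dist_le)
open Pool.Agent.TH685.TI (gw one_le_gw moment_gw_le)

variable {ι : Type} [Fintype ι]

/-- the values of a linear form at different integers -/
lemma sum_lin (a b : ℤ) (ha : a ≠ 0) (E : Finset ℕ) (M : ℕ)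
    (hE : ∀ h ∈ E, a * h + b ≠ 0 ∧ (a * h + b).natAbs ≤ M) (f : ℕ → ℝ) (hf : ∀ n, 0 ≤ f n) :
    ∑ h ∈ E, f (a * h + b).natAbs ≤ 2 * ∑ n ∈ Icc 1 M, f n := by
  classical
  have key : ∀ E' : Finset ℕ, E' ⊆ E → Set.InjOn (fun h : ℕ => (a * h + b).natAbs) (E' : Set ℕ) →
      ∑ h ∈ E', f (a * h + b).natAbs ≤ ∑ n ∈ Icc 1 M, f n := by
    intro E' hE' hinj
    have h1 : ∑ h ∈ E', f (a * h + b).natAbs = ∑ n ∈ E'.image (fun h : ℕ => (a * h + b).natAbs), f n := by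
      rw [Finset.sum_image hinj]
    rw [h1]
    apply Finset.sum_le_sum_of_subset_of_nonneg
    · intro n hn
      obtain ⟨h, hh, rfl⟩ := mem_image.1 hn
      have h2 := hE h (hE' hh)
      rw [mem_Icc]
      exact ⟨Int.natAbs_pos.2 h2.1, h2.2⟩
    · intro n _ _
      exact hf n
  rw [← Finset.sum_filter_add_sum_filter_not E (fun h : ℕ => 0 < a * h + b)]
  have h1 := key (E.filter (fun h : ℕ => 0 < a * h + b)) (filter_subset _ _) (by
    intro x hx y hy hxy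
    rw [mem_coe, mem_filter] at hx hy
    simp only at hxy
    have h2 : a * (x : ℤ) = a * y := by omega
    have h3 := mul_left_cancel₀ ha h2
    exact_mod_cast h3)
  have h2 := key (E.filter (fun h : ℕ => ¬ 0 < a * h + b)) (filter_subset _ _) (by
    intro x hx y hy hxy
    rw [mem_coe, mem_filter] at hx hy
    simp only at hxy
    have h2 : a * (x : ℤ) = a * y := by omega
    have h3 := mul_left_cancel₀ ha h2
    exact_mod_cast h3)
  linarith

lemma lf_bound (F : ι → ℤ × ℤ) (i j : ι) (h Y : ℕ) (h1 : 1 ≤ Y) (hY : h ≤ Y) :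
    (lf F i j h).natAbs ≤ (bd F ^ 2 + bd F) * Y := by
  unfold lf
  have e1 : ((F i).1 * (F j).1 * (h : ℤ)).natAbs ≤ bd F ^ 2 * Y := by
    rw [Int.natAbs_mul, Int.natAbs_mul, Int.natAbs_natCast, sq]
    exact Nat.mul_le_mul (Nat.mul_le_mul (bd_slope F i) (bd_slope F j)) hY
  have e2 := bd_res F i j
  have e3 := Int.natAbs_add_le ((F i).1 * (F j).1 * (h : ℤ)) ((F i).1 * (F j).2 - (F j).1 * (F i).2)
  have e4 : bd F ≤ bd F * Y := Nat.le_mul_of_pos_right _ h1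
  calc _ ≤ _ := e3
    _ ≤ bd F ^ 2 * Y + bd F * Y := by omega
    _ = _ := by ring

lemma prod_le_sum_pow {α : Type} (s : Finset α) (hs : s.Nonempty) (x : α → ℝ) (hx : ∀ z, 0 ≤ x z) :
    ∏ z ∈ s, x z ≤ ∑ z ∈ s, x z ^ s.card := by
  obtain ⟨z, hz, hmax⟩ := s.exists_max_image x hs
  calc ∏ y ∈ s, x y ≤ ∏ _y ∈ s, x z := Finset.prod_le_prod (fun y _ => hx y) (fun y hy => hmax y hy)
    _ = x z ^ s.card := by rw [prod_const]
    _ ≤ _ := Finset.single_le_sum (f := fun z => x z ^ s.card) (fun y _ => pow_nonneg (hx y) _) hz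

open Classical in
/-- moments -/
lemma moment_gJ (F : ι → ℤ × ℤ) (hF : Good F) [Nonempty ι] (w k Y : ℕ) (hk : 1 ≤ k) (hY : 1 ≤ Y)
    (hkw : Fintype.card (ι × ι) * k ≤ w) :
    ∑ h ∈ (Icc 1 Y).filter (fun h => ∀ z : ι × ι, lf F z.1 z.2 h ≠ 0), gJ w F h ^ k ≤
      Fintype.card (ι × ι) * (2 * ((bd F ^ 2 + bd F) * Y * Real.exp 2)) := by
  obtain ⟨J, hJ⟩ : ∃ J : ℕ, J = Fintype.card (ι × ι) := ⟨_, rfl⟩
  have hJ1 : 1 ≤ J := by rw [hJ]; exact Fintype.card_pos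
  rw [← hJ] at hkw ⊢
  have hcard : (univ : Finset (ι × ι)).card = J := by rw [Finset.card_univ, hJ]
  have hpt : ∀ h : ℕ, gJ w F h ^ k ≤ ∑ z : ι × ι, gw w (lf F z.1 z.2 h).natAbs ^ (J * k) := by
    intro h
    have h1 := prod_le_sum_pow (univ : Finset (ι × ι)) univ_nonempty
      (fun z => gw w (lf F z.1 z.2 h).natAbs ^ k)
      (fun z => pow_nonneg (by linarith [one_le_gw w (lf F z.1 z.2 h).natAbs]) _)
    rw [hcard, Finset.prod_pow] at h1
    refine h1.trans (le_of_eq ?_)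
    apply Finset.sum_congr rfl
    intro z _
    rw [← pow_mul, mul_comm k J]
  refine (Finset.sum_le_sum fun h _ => hpt h).trans ?_
  rw [Finset.sum_comm]
  have h2 : ∀ z ∈ (univ : Finset (ι × ι)), ∑ h ∈ (Icc 1 Y).filter (fun h => ∀ z : ι × ι, lf F z.1 z.2 h ≠ 0),
      gw w (lf F z.1 z.2 h).natAbs ^ (J * k) ≤ 2 * ((bd F ^ 2 + bd F) * Y * Real.exp 2) := by
    intro z _
    have h3 := sum_lin ((F z.1).1 * (F z.2).1) ((F z.1).1 * (F z.2).2 - (F z.2).1 * (F z.1).2)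
      (mul_ne_zero (hF.ne _) (hF.ne _))
      ((Icc 1 Y).filter (fun h => ∀ z : ι × ι, lf F z.1 z.2 h ≠ 0)) ((bd F ^ 2 + bd F) * Y)
      (fun h hh => by
        rw [mem_filter, mem_Icc] at hh
        exact ⟨hh.2 z, lf_bound F z.1 z.2 h Y hY hh.1.2⟩)
      (fun n => gw w n ^ (J * k)) (fun n => pow_nonneg (by linarith [one_le_gw w n]) _)
    refine le_trans h3 ?_
    have h4 := moment_gw_le w (J * k) ((bd F ^ 2 + bd F) * Y) (Nat.mul_pos hJ1 hk) hkw
    push_cast at h4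
    linarith
  refine (Finset.sum_le_sum h2).trans (le_of_eq ?_)
  rw [sum_const, hcard, nsmul_eq_mul]

open Classical in
/-- the average of the factor over the differences of a fairly dense set -/
theorem avgJ (F : ι → ℤ × ℤ) (hF : Good F) [Nonempty ι] (w q T g : ℕ) (S : Finset ℕ) (E : ℝ)
    (hg : 1 ≤ g) (hq : 1 ≤ q) (hqw : Fintype.card (ι × ι) * (2 * g * q) ≤ w) (hS : S ⊆ Icc 1 T)
    (hE : 0 ≤ E)
    (hT : 32 * (Fintype.card (ι × ι) : ℝ) * (bd F ^ 2 + bd F) * (T : ℝ) ≤ E ^ q * S.card) :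
    ∑ z ∈ S.offDiag, (if ∀ u : ι × ι, lf F u.1 u.2 (Nat.dist z.1 z.2) ≠ 0 then
      gJ w F (Nat.dist z.1 z.2) ^ (2 * g) else 0) ≤ E * (S.card : ℝ) ^ 2 := by
  obtain ⟨G, hG⟩ : ∃ G : ℕ → ℝ, ∀ n, G n = if ∀ u : ι × ι, lf F u.1 u.2 n ≠ 0 then
      gJ w F n ^ (2 * g) else 0 := ⟨_, fun _ => rfl⟩
  have hG0 : ∀ n, 0 ≤ G n := by
    intro n
    rw [hG]
    split_ifs
    · exact pow_nonneg (by linarith [one_le_gJ w F n]) _
    · exact le_rfl
  have e0 : ∀ z ∈ S.offDiag, (if ∀ u : ι × ι, lf F u.1 u.2 (Nat.dist z.1 z.2) ≠ 0 then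
      gJ w F (Nat.dist z.1 z.2) ^ (2 * g) else 0) = G (Nat.dist z.1 z.2) := fun z _ => (hG _).symm
  rw [Finset.sum_congr rfl e0]
  obtain ⟨X, hX⟩ : ∃ X : ℝ, X = ∑ z ∈ S.offDiag, G (Nat.dist z.1 z.2) := ⟨_, rfl⟩
  rw [← hX]
  have hX0 : 0 ≤ X := by
    rw [hX]
    exact Finset.sum_nonneg fun z _ => hG0 _
  rcases Nat.eq_zero_or_pos T with hT0 | hT1
  · have hSe : S = ∅ := by
      rw [hT0] at hS
      exact subset_empty.1 (by simpa using hS)
    rw [hX, hSe]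
    simp
  obtain ⟨m, rfl⟩ : ∃ m, q = m + 1 := ⟨q - 1, by omega⟩
  have h1 : X ^ (m + 1) ≤ (#S.offDiag : ℝ) ^ m * ∑ z ∈ S.offDiag, G (Nat.dist z.1 z.2) ^ (m + 1) := by
    rw [hX]
    exact pow_sum_le_card_mul_sum_pow (fun z _ => hG0 _) m
  have h2 : (#S.offDiag : ℝ) ≤ (#S : ℝ) ^ 2 := by
    have : #S.offDiag ≤ #S * #S := by
      rw [offDiag_card]
      exact Nat.sub_le _ _
    calc (#S.offDiag : ℝ) ≤ ((#S * #S : ℕ) : ℝ) := by exact_mod_cast this
      _ = (#S : ℝ) ^ 2 := by push_cast; ring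
  have h5 := sum_dist_le S T hS (fun n : ℕ => G n ^ (m + 1)) (fun n => pow_nonneg (hG0 n) _)
  have h6 : ∑ h ∈ Icc 1 T, G h ^ (m + 1) ≤
      Fintype.card (ι × ι) * (2 * ((bd F ^ 2 + bd F) * T * Real.exp 2)) := by
    refine le_trans (le_of_eq ?_) (moment_gJ F hF w (2 * g * (m + 1)) T
      (Nat.mul_pos (by omega) (by omega)) hT1 hqw)
    rw [Finset.sum_filter]
    apply Finset.sum_congr rfl
    intro h _
    rw [hG]
    split_ifs
    · rw [← pow_mul]
    · rw [zero_pow (by omega)]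
  have he : Real.exp 2 ≤ 8 := by
    have h7 := Real.exp_one_lt_d9
    have h8 : Real.exp 2 = Real.exp 1 ^ 2 := by
      rw [← Real.exp_nat_mul]; norm_num
    have h9 := Real.exp_pos 1
    rw [h8]
    nlinarith
  have h7 : (Fintype.card (ι × ι) : ℝ) * (2 * ((bd F ^ 2 + bd F) * T * Real.exp 2)) ≤
      16 * (Fintype.card (ι × ι) : ℝ) * (bd F ^ 2 + bd F) * T := by
    calc (Fintype.card (ι × ι) : ℝ) * (2 * ((bd F ^ 2 + bd F) * T * Real.exp 2)) ≤
          (Fintype.card (ι × ι) : ℝ) * (2 * ((bd F ^ 2 + bd F) * T * 8)) := by gcongr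
      _ = _ := by ring
  have hS0 : (0 : ℝ) ≤ S.card := Nat.cast_nonneg _
  have h8 : X ^ (m + 1) ≤ (E * (S.card : ℝ) ^ 2) ^ (m + 1) := by
    calc X ^ (m + 1) ≤ (#S.offDiag : ℝ) ^ m * ∑ z ∈ S.offDiag, G (Nat.dist z.1 z.2) ^ (m + 1) := h1
      _ ≤ ((#S : ℝ) ^ 2) ^ m * (2 * #S * (16 * (Fintype.card (ι × ι) : ℝ) * (bd F ^ 2 + bd F) * T)) := by
          apply mul_le_mul
          · gcongr
          · refine h5.trans ?_
            apply mul_le_mul_of_nonneg_left (h6.trans h7) (by positivity)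
          · apply Finset.sum_nonneg
            intro z _
            exact pow_nonneg (hG0 _) _
          · positivity
      _ = ((#S : ℝ) ^ 2) ^ m * (#S * (32 * (Fintype.card (ι × ι) : ℝ) * (bd F ^ 2 + bd F) * T)) := by
          ring
      _ ≤ ((#S : ℝ) ^ 2) ^ m * (#S * (E ^ (m + 1) * #S)) := by gcongr
      _ = (E * (S.card : ℝ) ^ 2) ^ (m + 1) := by
          rw [mul_pow]
          ring
  exact le_of_pow_le_pow_left₀ (by omega) (by positivity) h8

open Classical in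
/-- few pairs with a collision -/
lemma few_bad (F : ι → ℤ × ℤ) (hF : Good F) (T : ℕ) (S : Finset ℕ) (hS : S ⊆ Icc 1 T) :
    ∑ z ∈ S.offDiag, (if ∀ u : ι × ι, lf F u.1 u.2 (Nat.dist z.1 z.2) ≠ 0 then (0 : ℝ) else 1) ≤
      2 * #S * Fintype.card (ι × ι) := by
  have h5 := sum_dist_le S T hS (fun n : ℕ => if ∀ u : ι × ι, lf F u.1 u.2 n ≠ 0 then (0 : ℝ) else 1)
    (fun n => by split_ifs <;> norm_num)
  refine h5.trans ?_
  apply mul_le_mul_of_nonneg_left _ (by positivity)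
  have h1 : ∀ h ∈ Icc 1 T, (if ∀ u : ι × ι, lf F u.1 u.2 h ≠ 0 then (0 : ℝ) else 1) ≤
      ∑ u : ι × ι, (if lf F u.1 u.2 h = 0 then (1 : ℝ) else 0) := by
    intro h _
    split_ifs with hc
    · exact Finset.sum_nonneg fun u _ => by split_ifs <;> norm_num
    · push Not at hc
      obtain ⟨u, hu⟩ := hc
      have h2 := Finset.single_le_sum (f := fun u : ι × ι => if lf F u.1 u.2 h = 0 then (1 : ℝ) else 0)
        (fun u _ => by split_ifs <;> norm_num) (mem_univ u)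
      rw [if_pos hu] at h2
      exact h2
  refine (Finset.sum_le_sum h1).trans ?_
  rw [Finset.sum_comm]
  have h2 : ∀ u ∈ (univ : Finset (ι × ι)), ∑ h ∈ Icc 1 T, (if lf F u.1 u.2 h = 0 then (1 : ℝ) else 0) ≤ 1 := by
    intro u _
    rw [← Finset.sum_filter, Finset.sum_const, nsmul_eq_mul, mul_one]
    have h3 : ((Icc 1 T).filter (fun h => lf F u.1 u.2 h = 0)).card ≤ 1 := by
      rw [Finset.card_le_one]
      intro x hx y hy
      have hx2 := (mem_filter.1 hx).2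
      have hy2 := (mem_filter.1 hy).2
      unfold lf at hx2 hy2
      have h4 : (F u.1).1 * (F u.2).1 * (x : ℤ) = (F u.1).1 * (F u.2).1 * y := by linarith
      have h5 := mul_left_cancel₀ (mul_ne_zero (hF.ne _) (hF.ne _)) h4
      exact_mod_cast h5
    exact_mod_cast h3
  refine (Finset.sum_le_sum h2).trans ?_
  rw [sum_const, Finset.card_univ, nsmul_eq_mul, mul_one]

end Pool.Agent.K6.H45.EA
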