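import Pool.Agent.K6.H45.EA.Ms
import Pool.Agent.N646.RG.Lam

set_option autoImplicit false
set_option maxHeartbeats 1000000

/-! # The same difference for the two pairs of primes -/

namespace Pool.Agent.K6.H45.EA

open Finset Filter
open Pool.Agent.N646.RG.Lam (lamR1 Rs')
open Pool.Agent.Y827.GS (Adf)

/-- the extended family -/
def Fk {α : Type} (G : α → ℕ) (s : ℕ) : Option α → ℤ × ℤ
  | none => (1, -(s : ℤ))
  | some x => (6, 6 * (G x : ℤ) - 1)

lemma good_Fk {α : Type} (G : α → ℕ) (hG : Function.Injective G) (s : ℕ)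
    (h : ∀ p : ℕ, p.Prime → ∃ r : ℤ, ¬ (p : ℤ) ∣ r - s ∧ ∀ x, ¬ (p : ℤ) ∣ 6 * r + (6 * (G x : ℤ) - 1)) :
    Good (Fk G s) where
  ne := by
    rintro (_ | x)
    · exact one_ne_zero
    · show (6 : ℤ) ≠ 0
      norm_num
  prim := by
    rintro (_ | x)
    · exact isCoprime_one_left
    · show IsCoprime (6 : ℤ) (6 * (G x : ℤ) - 1)
      exact ⟨G x, -1, by ring⟩
  np := by
    rintro (_ | x) (_ | y) hxy
    · exact absurd rfl hxy
    · show (1 : ℤ) * (6 * (G y : ℤ) - 1) - 6 * (-(s : ℤ)) ≠ 0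
      omega
    · show (6 : ℤ) * (-(s : ℤ)) - 1 * (6 * (G x : ℤ) - 1) ≠ 0
      omega
    · show (6 : ℤ) * (6 * (G y : ℤ) - 1) - 6 * (6 * (G x : ℤ) - 1) ≠ 0
      intro h0
      apply hxy
      have : G x = G y := by omega
      rw [hG this]
  adm := by
    intro p hp
    obtain ⟨r, h1, h2⟩ := h p hp
    refine ⟨r, ?_⟩
    rintro (_ | x)
    · show ¬ (p : ℤ) ∣ 1 * r + -(s : ℤ)
      rw [one_mul, ← sub_eq_add_neg]
      exact h1
    · exact h2 x

lemma unif (P : ℕ → ℝ → ℕ → Prop)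
    (hmono : ∀ s c c' N N', 0 < c' → c' ≤ c → N ≤ N' → P s c N → P s c' N')
    (h : ∀ s, ∃ c : ℝ, 0 < c ∧ ∃ N : ℕ, P s c N) (s₀ : ℕ) :
    ∃ c : ℝ, 0 < c ∧ ∃ N : ℕ, ∀ s ≤ s₀, P s c N := by
  induction s₀ with
  | zero =>
    obtain ⟨c, hc, N, hP⟩ := h 0
    refine ⟨c, hc, N, fun s hs => ?_⟩
    rw [Nat.le_zero.1 hs]
    exact hP
  | succ s₀ ih =>
    obtain ⟨c, hc, N, hP⟩ := ih
    obtain ⟨c', hc', N', hP'⟩ := h (s₀ + 1)
    refine ⟨min c c', lt_min hc hc', max N N', fun s hs => ?_⟩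
    rcases Nat.lt_or_ge s (s₀ + 1) with h1 | h1
    · exact hmono s c _ N _ (lt_min hc hc') (min_le_left _ _) (le_max_left _ _) (hP s (by omega))
    · have : s = s₀ + 1 := by omega
      rw [this]
      exact hmono _ c' _ N' _ (lt_min hc hc') (min_le_right _ _) (le_max_right _ _) hP'

/-- the `m`-th prime -/
noncomputable def pr (m : ℕ) : ℕ := Nat.nth Nat.Prime (m - 1)

/-- the decomposition with the difference `h` -/
def Dec (C h X n : ℕ) : Prop :=
  ∃ k m : ℕ, 1 ≤ k ∧ 1 ≤ m ∧ k + m = n ∧ (m : ℝ) ≤ Real.log X ^ C ∧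
    (6 * k - 1).Prime ∧ (6 * k - 1 + h).Prime ∧ (pr m + h).Prime

open Classical in
/-- the number of the `n` with `X < n ≤ 10 X` with such a decomposition -/
noncomputable def cnt (C h X : ℕ) : ℕ := ((Ioc X (10 * X)).filter (Dec C h X)).card

/-- **M side** many indices -/
theorem mside : ∃ K₂ : ℕ, 1 ≤ K₂ ∧ ∀ U : ℕ, ∃ T₀ : ℕ, ∀ T : ℕ, T₀ ≤ T →
    ∀ V : Fin 4 × Fin K₂ → ℕ, Function.Injective V → (∀ x, V x ≤ U) →
      (∀ p : ℕ, p.Prime → p ≤ 4 * K₂ → ∀ x, p ∣ V x) →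
      ∃ x y, V x < V y ∧ ∃ S : Finset ℕ, S ⊆ Icc 1 T ∧
        (∀ m ∈ S, (pr m + 6 * (V y - V x)).Prime) ∧
        (T : ℝ) ≤ #S * Real.log T ^ (4 * K₂ + 2) := by
  classical
  obtain ⟨K₂, hK₂, δ, hδ, hlam⟩ := lamR1 4 1 (by norm_num) (by norm_num)
  obtain ⟨s₀, c, hc, hN⟩ := hlam 1
  refine ⟨K₂, hK₂, fun U => ?_⟩
  have hlogt : Tendsto (fun x : ℕ => Real.log (x : ℝ)) atTop atTop :=
    Real.tendsto_log_atTop.comp tendsto_natCast_atTop_atTop
  obtain ⟨T₀, hT₀⟩ := eventually_atTop.1 ((hN.and (hlogt.eventually_ge_atTop (1 + 1 / c))).and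
    (eventually_ge_atTop (100 * (6 * U + s₀ + 2))))
  refine ⟨T₀, fun T hT V hV hVU hVp => ?_⟩
  obtain ⟨⟨hN, hlog⟩, hTU⟩ := hT₀ T hT
  have hTr : (100 * (6 * (U : ℝ) + s₀ + 2)) ≤ T := by exact_mod_cast hTU
  have hU0 : (0 : ℝ) ≤ U := Nat.cast_nonneg _
  have hs00 : (0 : ℝ) ≤ s₀ := Nat.cast_nonneg _
  have hinj : Function.Injective (fun x : Fin 4 × Fin K₂ => ((1 : ℤ), 6 * (V (x.1, x.2) : ℤ))) := by
    intro x y hxy
    have h1 := (Prod.ext_iff.1 hxy).2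
    simp only at h1
    have h2 : V (x.1, x.2) = V (y.1, y.2) := by omega
    exact hV h2
  obtain ⟨s, S, σ, hs, -, -, hS, hcard⟩ := hN (fun a b => ((1 : ℤ), 6 * (V (a, b) : ℤ))) hinj (by
      intro g i
      refine ⟨one_ne_zero, by norm_num, ?_, isCoprime_one_left, ?_⟩
      · have := hVU (g, i)
        show |6 * (V (g, i) : ℤ)| ≤ T
        rw [abs_of_nonneg (by positivity)]
        omega
      · intro t ht1 _
        show (T : ℝ) / 24 ≤ ((1 : ℤ) : ℝ) * t + ((6 * (V (g, i) : ℤ) : ℤ) : ℝ)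
        push_cast
        have : (0 : ℝ) ≤ V (g, i) := Nat.cast_nonneg _
        linarith) (by
      intro p hp hpk
      refine ⟨1, fun g i h => ?_⟩
      simp only at h
      have h1 : (p : ℤ) ∣ (V (g, i) : ℤ) := by exact_mod_cast hVp p hp hpk (g, i)
      have h2 : (p : ℤ) ∣ 1 := by
        have h3 : (1 : ℤ) = ((1 : ℤ) * 1 + 6 * (V (g, i) : ℤ)) - 6 * (V (g, i) : ℤ) := by ring
        rw [h3]
        exact dvd_sub h (h1.mul_left _)
      have h3 : p ∣ 1 := by exact_mod_cast h2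
      exact hp.one_lt.ne' (Nat.dvd_one.1 h3))
  have hlT : 0 < Real.log T := by
    have : 0 < 1 / c := by positivity
    linarith
  -- a pair
  have hpair : ∃ x y : Fin 4 × Fin K₂, V x < V y ∧
      ∀ n ∈ Rs' (fun a b => ((1 : ℤ), 6 * (V (a, b) : ℤ))) δ s S σ T,
        (n + 6 * V x).Prime ∧ (n + 6 * V y).Prime := by
    have h1 : 1 < S.card := by omega
    obtain ⟨a, ha, b, hb, hab⟩ := Finset.one_lt_card.1 h1
    have hP : ∀ g ∈ S, ∀ n ∈ Rs' (fun a b => ((1 : ℤ), 6 * (V (a, b) : ℤ))) δ s S σ T,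
        (n + 6 * V (g, σ g)).Prime := by
      intro g hg n hn
      unfold Rs' at hn
      rw [mem_filter] at hn
      have h2 := hn.2.2.2.2.2 g hg
      have h3 : ((1 : ℤ) * (n : ℤ) + 6 * (V (g, σ g) : ℤ)).toNat = n + 6 * V (g, σ g) := by omega
      rw [h3] at h2
      exact h2
    have hne : V (a, σ a) ≠ V (b, σ b) := by
      intro h
      exact hab (Prod.ext_iff.1 (hV h)).1
    rcases lt_or_gt_of_ne hne with h | h
    · exact ⟨_, _, h, fun n hn => ⟨hP a ha n hn, hP b hb n hn⟩⟩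
    · exact ⟨_, _, h, fun n hn => ⟨hP b hb n hn, hP a ha n hn⟩⟩
  obtain ⟨x, y, hxy, hprime⟩ := hpair
  refine ⟨x, y, hxy, ?_⟩
  obtain ⟨Z, hZ⟩ : ∃ Z : Finset ℕ, Z = Rs' (fun a b => ((1 : ℤ), 6 * (V (a, b) : ℤ))) δ s S σ T :=
    ⟨_, rfl⟩
  rw [← hZ] at hprime hcard
  have hnth : ∀ n ∈ Z, Nat.nth Nat.Prime (Nat.count Nat.Prime (n + 6 * V x)) = n + 6 * V x :=
    fun n hn => Nat.nth_count (hprime n hn).1
  refine ⟨Z.image (fun n => Nat.count Nat.Prime (n + 6 * V x) + 1), ?_, ?_, ?_⟩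
  · intro m hm
    obtain ⟨n, hn, rfl⟩ := mem_image.1 hm
    rw [mem_Icc]
    have h1 : Nat.count Nat.Prime (n + 6 * V x) ≤ n + 6 * V x := Nat.count_le _
    have h2 : (n : ℝ) ≤ T / 2 + s := by
      rw [hZ] at hn
      unfold Rs' at hn
      rw [mem_filter] at hn
      exact hn.2.2.1
    have h3 : 2 * n ≤ T + 2 * s := by
      have : (2 * (n : ℝ)) ≤ T + 2 * s := by linarith
      exact_mod_cast this
    have h4 := hVU x
    omega
  · intro m hm
    obtain ⟨n, hn, rfl⟩ := mem_image.1 hm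
    unfold pr
    rw [Nat.add_sub_cancel, hnth n hn]
    have h1 : n + 6 * V x + 6 * (V y - V x) = n + 6 * V y := by omega
    rw [h1]
    exact (hprime n hn).2
  · rw [card_image_of_injOn]
    · have h1 : c * (T / Real.log T ^ (4 * K₂ + 1)) ≤ #Z := hcard
      rw [mul_div_assoc', div_le_iff₀ (by positivity)] at h1
      have h2 : (T : ℝ) ≤ (#Z * Real.log T ^ (4 * K₂ + 1)) * (1 / c) := by
        rw [mul_one_div, le_div_iff₀ hc]
        linarith
      have h3 : 1 / c ≤ Real.log T := by linarith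
      calc (T : ℝ) ≤ (#Z * Real.log T ^ (4 * K₂ + 1)) * (1 / c) := h2
        _ ≤ (#Z * Real.log T ^ (4 * K₂ + 1)) * Real.log T :=
          mul_le_mul_of_nonneg_left h3 (by positivity)
        _ = #Z * Real.log T ^ (4 * K₂ + 2) := by ring
    · intro n hn n' hn' h
      simp only at h
      have h1 := hnth n hn
      have h2 := hnth n' hn'
      have h3 : Nat.count Nat.Prime (n + 6 * V x) = Nat.count Nat.Prime (n' + 6 * V x) := by omega
      rw [h3, h2] at h1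
      omega

end Pool.Agent.K6.H45.EA
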