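import Pool.Agent.K6.H45.EA.Core

set_option autoImplicit false
set_option maxHeartbeats 1000000

/-! # The same difference for the two pairs of primes: assembly -/

namespace Pool.Agent.K6.H45.EA

open Finset Filter
open Pool.Agent.N646.RG.Lam (lamR1 Rs')
open Pool.Agent.Y827.GS (Adf)

lemma unifF {α : Type} (A : Finset α) (P : α → ℝ → ℕ → Prop)
    (hmono : ∀ a c c' N N', 0 < c' → c' ≤ c → N ≤ N' → P a c N → P a c' N')
    (h : ∀ a, ∃ c : ℝ, 0 < c ∧ ∃ N : ℕ, P a c N) :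
    ∃ c : ℝ, 0 < c ∧ ∃ N : ℕ, ∀ a ∈ A, P a c N := by
  classical
  induction A using Finset.induction_on with
  | empty => exact ⟨1, one_pos, 0, fun a ha => absurd ha (notMem_empty a)⟩
  | insert b A hb ih =>
    obtain ⟨c, hc, N, hP⟩ := ih
    obtain ⟨c', hc', N', hP'⟩ := h b
    refine ⟨min c c', lt_min hc hc', max N N', fun a ha => ?_⟩
    rcases mem_insert.1 ha with h1 | h1
    · rw [h1]
      exact hmono _ c' _ N' _ (lt_min hc hc') (min_le_right _ _) (le_max_right _ _) hP'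
    · exact hmono a c _ N _ (lt_min hc hc') (min_le_left _ _) (le_max_left _ _) (hP a h1)

lemma log_two_le (a b : ℝ) (ha : 0 < a) (hb : 2 ≤ b) (h : a ≤ 2 * b) : Real.log a ≤ 2 * Real.log b := by
  have h1 : Real.log a ≤ Real.log (b ^ 2) := Real.log_le_log ha (by nlinarith)
  rw [Real.log_pow] at h1
  exact_mod_cast h1

lemma ev_l4 : ∀ᶠ X : ℕ in atTop, 1 ≤ l4 (X : ℝ) ∧ 0 < l4 ((16 * X : ℕ) : ℝ) ∧
    l4 ((16 * X : ℕ) : ℝ) ≤ 2 * l4 (X : ℝ) := by
  have hl1 := Real.tendsto_log_atTop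
  have hX : Tendsto (fun X : ℕ => (X : ℝ)) atTop atTop := tendsto_natCast_atTop_atTop
  have t1 := hl1.comp hX
  have t2 := hl1.comp t1
  have t3 := hl1.comp t2
  have t4 := hl1.comp t3
  filter_upwards [t1.eventually_ge_atTop 16, t2.eventually_ge_atTop 2, t3.eventually_ge_atTop 2,
    t4.eventually_ge_atTop 1, eventually_ge_atTop 2] with X h1 h2 h3 h4 h5
  simp only [Function.comp_def] at h1 h2 h3 h4
  have h5r : (2 : ℝ) ≤ X := by exact_mod_cast h5
  unfold l4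
  refine ⟨h4, ?_, ?_⟩
  · have e0 : (X : ℝ) ≤ ((16 * X : ℕ) : ℝ) := by push_cast; linarith
    have e1 := Real.log_le_log (by linarith) e0
    have e2 := Real.log_le_log (by linarith) e1
    have e3 := Real.log_le_log (by linarith) e2
    have e4 := Real.log_le_log (by linarith) e3
    linarith
  · have e0 : (X : ℝ) ≤ ((16 * X : ℕ) : ℝ) := by push_cast; linarith
    have e1 := Real.log_le_log (by linarith) e0
    have e2 := Real.log_le_log (by linarith) e1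
    have e3 := Real.log_le_log (by linarith) e2
    have f1 : Real.log ((16 * X : ℕ) : ℝ) ≤ 2 * Real.log X := by
      have h6 : (16 : ℝ) ≤ X := by
        have := Real.log_le_sub_one_of_pos (by linarith : (0 : ℝ) < X)
        linarith
      have h7 := Real.log_le_log (by positivity) (show ((16 * X : ℕ) : ℝ) ≤ (X : ℝ) ^ 2 by
        push_cast; nlinarith)
      rw [Real.log_pow] at h7
      exact_mod_cast h7
    have f2 := log_two_le _ _ (by linarith) (by linarith) f1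
    have f3 := log_two_le _ _ (by linarith) (by linarith) f2
    exact log_two_le _ _ (by linarith) (by linarith) f3

/-- **The same difference on both sides**, for every configuration of positions. -/
theorem core : ∃ k₁ W₀ C : ℕ, 1 ≤ k₁ ∧ 1 ≤ W₀ ∧ ∀ U : ℕ, ∃ c : ℝ, 0 < c ∧ ∃ X₀ : ℕ, ∀ X : ℕ, X₀ ≤ X →
    ∀ G : Fin k₁ → ℕ, Function.Injective G → (∀ i, G i ≤ U) → (∀ i, W₀ ∣ G i) →
    ∃ i j, G i < G j ∧ c * X / l4 X ^ C ≤ (cnt C (6 * (G j - G i)) X : ℝ) := by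
  classical
  obtain ⟨K₂, hK₂, hmside⟩ := mside
  obtain ⟨k₂, hk₂⟩ : ∃ k₂ : ℕ, k₂ = 4 * K₂ := ⟨_, rfl⟩
  have hk₂1 : 4 ≤ k₂ := by omega
  obtain ⟨T₁, hT₁⟩ : ∃ T₁ : ℕ, T₁ = 4 * k₂ := ⟨_, rfl⟩
  obtain ⟨K₁, hK₁, δ, hδ, hlam⟩ := lamR1 T₁ (k₂ - 1) (by omega) (by
    rw [Nat.cast_sub (by omega), hT₁]
    push_cast
    have : (4 : ℝ) ≤ k₂ := by exact_mod_cast hk₂1
    linarith)
  obtain ⟨s₀, c₁, hc₁, hN⟩ := hlam 6
  obtain ⟨g, hg⟩ : ∃ g : ℕ, g = T₁ * K₁ + 1 := ⟨_, rfl⟩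
  have hcardι : Fintype.card (Option (Fin T₁ × Fin K₁)) = g := by
    rw [Fintype.card_option, Fintype.card_prod, Fintype.card_fin, Fintype.card_fin, hg]
  have hTK : 1 ≤ T₁ * K₁ := Nat.mul_pos (by omega) hK₁
  have hg2 : 2 ≤ g := by omega
  obtain ⟨B, hB⟩ : ∃ B : ℕ, B = 4 * K₂ + 2 := ⟨_, rfl⟩
  refine ⟨T₁ * K₁, (T₁ * K₁ + k₂).factorial, 2 * g, hTK, Nat.factorial_pos _, fun U => ?_⟩
  obtain ⟨T₀, hmside⟩ := hmside U
  -- the constants
  obtain ⟨c₂, hc₂, N₁, hms⟩ := unifF ((Fintype.piFinset (fun _ : Fin T₁ × Fin K₁ => range (U + 1))) ×ˢ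
      range (s₀ + 1))
    (fun a c N₀ => Good (Fk a.1 a.2) → ∀ N : ℕ, N₀ ≤ N → ∀ K : Finset ℕ, K ⊆ Icc 1 N →
      (∀ n ∈ K, Rf (Fk a.1 a.2) δ N n) → c₁ * N / Real.log N ^ g ≤ #K →
      ∀ T : ℕ, (T : ℝ) ≤ Real.log N ^ (g + 1) →
        Real.log N ^ g * Real.log (Real.log N) ^ (B + 1) ≤ 2 * T →
      ∀ S : Finset ℕ, S ⊆ Icc 1 T → (T : ℝ) ≤ #S * Real.log T ^ B →
      c * N / l4 N ^ (2 * g) ≤ #((S ×ˢ K).image (fun z => z.1 + z.2)))
    (by
      intro a c c' N N' hc' hcc hNN h hgood M hM K hK1 hK2 hK3 T hT1 hT2 S hS1 hS2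
      have h1 := h hgood M (hNN.trans hM) K hK1 hK2 hK3 T hT1 hT2 S hS1 hS2
      refine le_trans ?_ h1
      have h2 : 0 ≤ l4 (M : ℝ) ^ (2 * g) := by
        rw [pow_mul]
        positivity
      apply div_le_div_of_nonneg_right _ h2
      exact mul_le_mul_of_nonneg_right hcc (Nat.cast_nonneg _))
    (by
      intro a
      by_cases hgood : Good (Fk a.1 a.2)
      · obtain ⟨c, hc, N₀, h⟩ := many_sums (Fk a.1 a.2) hgood δ hδ c₁ hc₁ B
        rw [hcardι] at h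
        exact ⟨c, hc, N₀, fun _ => h⟩
      · exact ⟨1, one_pos, 0, fun h => absurd h hgood⟩)
  refine ⟨c₂ / 2 ^ (2 * g), by positivity, ?_⟩
  have hl1 := Real.tendsto_log_atTop
  have hX : Tendsto (fun X : ℕ => (X : ℝ)) atTop atTop := tendsto_natCast_atTop_atTop
  have h16 : Tendsto (fun X : ℕ => 16 * X) atTop atTop :=
    tendsto_atTop_mono (fun X => by show X ≤ 16 * X; omega) tendsto_id
  have t1 : Tendsto (fun X : ℕ => Real.log ((16 * X : ℕ) : ℝ)) atTop atTop :=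
    hl1.comp (hX.comp h16)
  have t2 : Tendsto (fun X : ℕ => Real.log (Real.log ((16 * X : ℕ) : ℝ))) atTop atTop := hl1.comp t1
  have hlp : ∀ᶠ X : ℕ in atTop, Real.log X ^ (2 * g + 1) ≤ X := by
    have h := ((isLittleO_log_rpow_rpow_atTop ((2 * g + 1 : ℕ) : ℝ) (by norm_num : (0 : ℝ) < 1)).comp_tendsto
      hX).bound (by norm_num : (0 : ℝ) < 1)
    filter_upwards [h, eventually_ge_atTop 1] with X hX hX1
    have hX1' : (1 : ℝ) ≤ X := by exact_mod_cast hX1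
    have hl := Real.log_nonneg hX1'
    simp only [Function.comp_def, Real.rpow_natCast, Real.rpow_one, one_mul] at hX
    rw [Real.norm_of_nonneg (by positivity), Real.norm_of_nonneg (by positivity)] at hX
    exact hX
  obtain ⟨X₀, hX₀⟩ := eventually_atTop.1 ((((h16.eventually hN).and (t1.eventually (ev_pow (B + 1)))).and
    ((t1.eventually_ge_atTop ((T₀ : ℝ) + 3)).and (t2.eventually_ge_atTop 2))).and
    ((ev_l4.and ((hl1.comp hX).eventually_ge_atTop ((2 : ℝ) ^ (g + 1) + 2))).and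
      (hlp.and (eventually_ge_atTop (N₁ + 6 * U + s₀ + 100)))))
  refine ⟨X₀, fun X hXX G hG hGU hGW => ?_⟩
  obtain ⟨⟨⟨hN, hlogp⟩, hLT, hlL⟩, ⟨⟨hl4a, hl4b, hl4c⟩, hlX⟩, hlp, hXbig⟩ := hX₀ X hXX
  simp only [Function.comp_def] at hlX
  obtain ⟨N, hNd⟩ : ∃ N : ℕ, N = 16 * X := ⟨_, rfl⟩
  rw [← hNd] at hN hlogp hLT hlL hl4b hl4c
  have hXr : (100 : ℝ) ≤ X := by exact_mod_cast (by omega : 100 ≤ X)
  have hNr : (N : ℝ) = 16 * X := by rw [hNd]; push_cast; ring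
  -- the positions
  obtain ⟨G', hG'⟩ : ∃ G' : Fin T₁ × Fin K₁ → ℕ, ∀ x, G' x = G (finProdFinEquiv x) :=
    ⟨_, fun _ => rfl⟩
  have hG'inj : Function.Injective G' := by
    intro x y h
    rw [hG', hG'] at h
    exact finProdFinEquiv.injective (hG h)
  have hG'U : ∀ x, G' x ≤ U := fun x => by rw [hG']; exact hGU _
  have hG'p : ∀ p : ℕ, p.Prime → p ≤ T₁ * K₁ + k₂ → ∀ x, p ∣ G' x := by
    intro p hp hpk x
    rw [hG']
    exact ((Nat.Prime.dvd_factorial hp).2 hpk).trans (hGW _)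
  have hinj : Function.Injective (fun x : Fin T₁ × Fin K₁ => ((6 : ℤ), 6 * (G' (x.1, x.2) : ℤ) - 1)) := by
    intro x y hxy
    have h1 := (Prod.ext_iff.1 hxy).2
    simp only at h1
    have h2 : G' (x.1, x.2) = G' (y.1, y.2) := by omega
    exact hG'inj h2
  obtain ⟨s, S, σ, hs, -, hadm, hS, hcard⟩ := hN (fun a b => ((6 : ℤ), 6 * (G' (a, b) : ℤ) - 1)) hinj (by
      intro a b
      have h1 := hG'U (a, b)
      refine ⟨by norm_num, by norm_num, ?_, ⟨G' (a, b), -1, by ring⟩, ?_⟩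
      · show |6 * (G' (a, b) : ℤ) - 1| ≤ N
        rw [abs_le]
        constructor <;> omega
      · intro t ht1 _
        show (N : ℝ) / 24 ≤ ((6 : ℤ) : ℝ) * t + ((6 * (G' (a, b) : ℤ) - 1 : ℤ) : ℝ)
        push_cast
        have : (0 : ℝ) ≤ G' (a, b) := Nat.cast_nonneg _
        linarith) (by
      intro p hp hpk
      refine ⟨0, fun a b h => ?_⟩
      simp only at h
      have h1 : (p : ℤ) ∣ (G' (a, b) : ℤ) := by exact_mod_cast hG'p p hp (by omega) (a, b)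
      have h2 : (p : ℤ) ∣ 1 := by
        have h3 : (1 : ℤ) = 6 * (G' (a, b) : ℤ) - ((6 : ℤ) * 0 + (6 * (G' (a, b) : ℤ) - 1)) := by ring
        rw [h3]
        exact dvd_sub (h1.mul_left _) h
      have h3 : p ∣ 1 := by exact_mod_cast h2
      exact hp.one_lt.ne' (Nat.dvd_one.1 h3))
  have hgood : Good (Fk G' s) := by
    apply good_Fk G' hG'inj s
    intro p hp
    obtain ⟨r, h1, h2⟩ := hadm p hp
    exact ⟨r, h1, fun x => h2 x.1 x.2⟩
  obtain ⟨K, hK⟩ : ∃ K : Finset ℕ, K = Rs' (fun a b => ((6 : ℤ), 6 * (G' (a, b) : ℤ) - 1)) δ s S σ N :=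
    ⟨_, rfl⟩
  rw [← hK] at hcard
  have hKm : ∀ n ∈ K, 1 ≤ n ∧ n ≤ N ∧ X ≤ n ∧ n ≤ 8 * X + s₀ ∧ Rf (Fk G' s) δ N n ∧
      ∀ a ∈ S, (6 * (n + G' (a, σ a)) - 1).Prime := by
    intro n hn
    rw [hK] at hn
    unfold Rs' at hn
    rw [mem_filter, mem_Icc] at hn
    obtain ⟨⟨h1, h2⟩, h3, h4, h5, h6, h7⟩ := hn
    refine ⟨h1, h2, ?_, ?_, ?_, ?_⟩
    · rw [hNr] at h3
      have : (X : ℝ) ≤ n := by linarith
      exact_mod_cast this
    · rw [hNr] at h4
      have h8 : (n : ℝ) ≤ 8 * X + s := by linarith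
      have h9 : n ≤ 8 * X + s := by exact_mod_cast h8
      omega
    · rintro (_ | x) p hp hlp
      · show ¬ (p : ℤ) ∣ 1 * (n : ℤ) + -(s : ℤ)
        rw [one_mul, ← sub_eq_add_neg]
        exact h5 p hp hlp
      · exact h6 x.1 x.2 p hp hlp
    · intro a ha
      have h8 := h7 a ha
      have h9 : ((6 : ℤ) * (n : ℤ) + (6 * (G' (a, σ a) : ℤ) - 1)).toNat = 6 * (n + G' (a, σ a)) - 1 := by
        omega
      rw [h9] at h8
      exact h8
  -- the classes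
  obtain ⟨S', hS'S, hS'c⟩ := Finset.exists_subset_card_eq (show k₂ ≤ S.card by omega)
  obtain ⟨e, he1, he2⟩ : ∃ e : Fin 4 × Fin K₂ → Fin T₁, Function.Injective e ∧ ∀ x, e x ∈ S := by
    have hS'c' : S'.card = 4 * K₂ := by rw [hS'c, hk₂]
    refine ⟨fun x => S'.orderEmbOfFin hS'c' (finProdFinEquiv x), ?_, fun x => ?_⟩
    · intro x y h
      exact finProdFinEquiv.injective ((S'.orderEmbOfFin hS'c').injective h)
    · exact hS'S (Finset.orderEmbOfFin_mem _ _ _)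
  -- the size of the second summand
  obtain ⟨L, hL⟩ : ∃ L : ℝ, L = Real.log (N : ℝ) := ⟨_, rfl⟩
  rw [← hL] at hLT hlL hlogp
  have hT₀0 : (0 : ℝ) ≤ T₀ := Nat.cast_nonneg _
  have hL3 : 3 ≤ L := by linarith
  have hL0 : 0 < L := by linarith
  obtain ⟨T, hT⟩ : ∃ T : ℕ, T = ⌊L ^ g * Real.log L ^ (B + 1)⌋₊ := ⟨_, rfl⟩
  have hlB : (1 : ℝ) ≤ Real.log L ^ (B + 1) := one_le_pow₀ (by linarith)
  have hLg : L ≤ L ^ g := le_self_pow₀ (by linarith) (by omega)
  have hbig : L * 2 ≤ L ^ g * Real.log L ^ (B + 1) := by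
    apply mul_le_mul hLg _ (by norm_num) (by positivity)
    have : Real.log L ≤ Real.log L ^ (B + 1) := le_self_pow₀ (by linarith) (by omega)
    linarith
  have hTle : (T : ℝ) ≤ L ^ g * Real.log L ^ (B + 1) := by
    rw [hT]; exact Nat.floor_le (by positivity)
  have hTge : L ^ g * Real.log L ^ (B + 1) ≤ 2 * T := by
    have := Nat.lt_floor_add_one (L ^ g * Real.log L ^ (B + 1))
    rw [← hT] at this
    linarith
  have hT1 : (T : ℝ) ≤ L ^ (g + 1) := by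
    calc (T : ℝ) ≤ L ^ g * Real.log L ^ (B + 1) := hTle
      _ ≤ L ^ g * L := by gcongr
      _ = L ^ (g + 1) := by ring
  have hTT₀ : T₀ ≤ T := by
    have : (T₀ : ℝ) ≤ T := by linarith
    exact_mod_cast this
  obtain ⟨x, y, hxy, SM, hSM1, hSM2, hSM3⟩ := hmside T hTT₀ (fun x => G' (e x, σ (e x))) (by
      intro x y h
      exact he1 (Prod.ext_iff.1 (hG'inj h)).1) (fun x => hG'U _)
    (fun p hp hpk x => hG'p p hp (by omega) _)
  rw [← hB] at hSM3
  refine ⟨finProdFinEquiv (e x, σ (e x)), finProdFinEquiv (e y, σ (e y)), ?_, ?_⟩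
  · rw [← hG', ← hG']
    exact hxy
  rw [← hG', ← hG']
  have hmain := hms (G', s) (by
    rw [mem_product, Fintype.mem_piFinset]
    exact ⟨fun x => mem_range.2 (by have := hG'U x; simp only; omega), mem_range.2 (by simp only; omega)⟩)
    hgood N (by omega) K (fun n hn => by
      have := hKm n hn
      rw [mem_Icc]
      exact ⟨this.1, this.2.1⟩) (fun n hn => (hKm n hn).2.2.2.2.1) (by
      rw [hg, mul_div_assoc]
      exact hcard) T (by rw [← hL]; exact hT1) (by rw [← hL]; exact hTge) SM hSM1 hSM3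
  obtain ⟨I, hI⟩ : ∃ I : Finset ℕ, I = (SM ×ˢ K).image (fun z => z.1 + z.2) := ⟨_, rfl⟩
  rw [← hI] at hmain
  -- logarithms
  have hlX2 : (2 : ℝ) ^ (g + 1) ≤ Real.log X := by linarith
  have hlX1 : 1 ≤ Real.log X := by
    have : (0 : ℝ) < (2 : ℝ) ^ (g + 1) := by positivity
    linarith
  have hLX : L ≤ 2 * Real.log X := by
    rw [hL, hNr, Real.log_mul (by norm_num) (by linarith)]
    have h1 : Real.log 16 ≤ Real.log X := Real.log_le_log (by norm_num) (by linarith)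
    linarith
  have hTX : (T : ℝ) ≤ Real.log X ^ (2 * g) := by
    calc (T : ℝ) ≤ L ^ (g + 1) := hT1
      _ ≤ (2 * Real.log X) ^ (g + 1) := pow_le_pow_left₀ hL0.le hLX _
      _ = 2 ^ (g + 1) * Real.log X ^ (g + 1) := by rw [mul_pow]
      _ ≤ Real.log X * Real.log X ^ (g + 1) := by gcongr
      _ = Real.log X ^ (g + 2) := by ring
      _ ≤ Real.log X ^ (2 * g) := pow_le_pow_right₀ hlX1 (by omega)
  have hTX2 : T ≤ X := by
    have h1 : Real.log X ^ (2 * g) ≤ Real.log X ^ (2 * g + 1) := pow_le_pow_right₀ hlX1 (by omega)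
    have : (T : ℝ) ≤ X := by linarith
    exact_mod_cast this
  -- the count
  have hcnt : I.card ≤ cnt (2 * g) (6 * (G' (e y, σ (e y)) - G' (e x, σ (e x)))) X := by
    rw [← Finset.card_image_of_injective I (add_left_injective (G' (e x, σ (e x))))]
    unfold cnt
    apply card_le_card
    intro n' hn'
    obtain ⟨v, hv, rfl⟩ := mem_image.1 hn'
    rw [hI] at hv
    obtain ⟨z, hz, rfl⟩ := mem_image.1 hv
    obtain ⟨hz1, hz2⟩ := mem_product.1 hz
    obtain ⟨m1, m2⟩ := mem_Icc.1 (hSM1 hz1)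
    obtain ⟨k1, k2, k3, k4, -, k6⟩ := hKm z.2 hz2
    have hU1 := hG'U (e x, σ (e x))
    rw [mem_filter, mem_Ioc]
    refine ⟨⟨by omega, by omega⟩, z.2 + G' (e x, σ (e x)), z.1, by omega, m1,
      by omega, ?_, ?_, ?_, ?_⟩
    · have : (z.1 : ℝ) ≤ T := by exact_mod_cast m2
      exact this.trans hTX
    · exact k6 (e x) (he2 x)
    · have h1 := k6 (e y) (he2 y)
      have h2 : 6 * (z.2 + G' (e x, σ (e x))) - 1 + 6 * (G' (e y, σ (e y)) - G' (e x, σ (e x))) =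
          6 * (z.2 + G' (e y, σ (e y))) - 1 := by omega
      rw [h2]
      exact h1
    · exact hSM2 z.1 hz1
  have hcntr : (#I : ℝ) ≤ (cnt (2 * g) (6 * (G' (e y, σ (e y)) - G' (e x, σ (e x)))) X : ℝ) := by
    exact_mod_cast hcnt
  refine le_trans ?_ (hmain.trans hcntr)
  have h1 : l4 (N : ℝ) ^ (2 * g) ≤ 2 ^ (2 * g) * l4 (X : ℝ) ^ (2 * g) := by
    rw [← mul_pow]
    exact pow_le_pow_left₀ hl4b.le hl4c _
  have h2 : 0 < l4 (N : ℝ) ^ (2 * g) := pow_pos hl4b _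
  have h3 : 0 < l4 (X : ℝ) ^ (2 * g) := pow_pos (by linarith) _
  rw [div_le_div_iff₀ h3 h2]
  have hX0 : (0 : ℝ) < X := by linarith
  calc c₂ / 2 ^ (2 * g) * X * l4 (N : ℝ) ^ (2 * g) ≤
        c₂ / 2 ^ (2 * g) * X * (2 ^ (2 * g) * l4 (X : ℝ) ^ (2 * g)) := by gcongr
    _ = c₂ * X * l4 (X : ℝ) ^ (2 * g) := by field_simp
    _ ≤ c₂ * N * l4 (X : ℝ) ^ (2 * g) := by
      have : (X : ℝ) ≤ N := by rw [hNr]; linarith
      gcongr

end Pool.Agent.K6.H45.EA
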