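import Pool.Agent.K6.H45.EA.Core2

set_option autoImplicit false

/-! # A positive proportion of all differences -/

namespace Pool.Agent.K6.H45.EA

open Finset Filter

/-- a greedy choice of integers whose differences avoid a given set -/
lemma greedy (A : Finset ℕ) (k L : ℕ) (h : k * (2 * A.card + 1) ≤ L) :
    ∃ g : Fin k → ℕ, Function.Injective g ∧ (∀ i, g i ≤ L) ∧ ∀ i j, g i < g j → g j - g i ∉ A := by
  classical
  induction k with
  | zero => exact ⟨fun i => i.elim0, fun i => i.elim0, fun i => i.elim0, fun i => i.elim0⟩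
  | succ k ih =>
    have h1 : k * (2 * A.card + 1) + (2 * A.card + 1) ≤ L := by
      calc k * (2 * A.card + 1) + (2 * A.card + 1) = (k + 1) * (2 * A.card + 1) := by ring
        _ ≤ L := h
    obtain ⟨g, hg1, hg2, hg3⟩ := ih (by omega)
    obtain ⟨Ex, hEx⟩ : ∃ Ex : Finset ℕ, Ex = (univ : Finset (Fin k)).biUnion (fun i =>
      {g i} ∪ (A.image (fun a => g i + a) ∪ A.image (fun a => g i - a))) := ⟨_, rfl⟩
    have hcard : Ex.card ≤ k * (2 * A.card + 1) := by
      rw [hEx]
      refine card_biUnion_le.trans ?_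
      have h2 : ∀ i ∈ (univ : Finset (Fin k)), ({g i} ∪ (A.image (fun a => g i + a) ∪
          A.image (fun a => g i - a)) : Finset ℕ).card ≤ 2 * A.card + 1 := by
        intro i _
        refine (card_union_le _ _).trans ?_
        have h3 := card_union_le (A.image (fun a => g i + a)) (A.image (fun a => g i - a))
        have h4 : (A.image (fun a => g i + a)).card ≤ A.card := card_image_le
        have h5 : (A.image (fun a => g i - a)).card ≤ A.card := card_image_le
        rw [card_singleton]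
        omega
      refine (Finset.sum_le_sum h2).trans ?_
      rw [sum_const, Finset.card_univ, Fintype.card_fin, smul_eq_mul]
    have hlt : Ex.card < (range (L + 1)).card := by
      rw [card_range]
      omega
    obtain ⟨v, hv1, hv2⟩ := Finset.exists_mem_notMem_of_card_lt_card hlt
    have hvL : v ≤ L := by
      have := mem_range.1 hv1
      omega
    have hne : ∀ i, v ≠ g i := by
      intro i hi
      apply hv2
      rw [hEx, mem_biUnion]
      exact ⟨i, mem_univ _, mem_union_left _ (mem_singleton.2 hi)⟩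
    have hup : ∀ i, g i < v → v - g i ∉ A := by
      intro i hi hA
      apply hv2
      rw [hEx, mem_biUnion]
      exact ⟨i, mem_univ _, mem_union_right _ (mem_union_left _ (mem_image.2 ⟨v - g i, hA, by omega⟩))⟩
    have hdn : ∀ i, v < g i → g i - v ∉ A := by
      intro i hi hA
      apply hv2
      rw [hEx, mem_biUnion]
      exact ⟨i, mem_univ _, mem_union_right _ (mem_union_right _ (mem_image.2 ⟨g i - v, hA, by omega⟩))⟩
    refine ⟨Fin.cons v g, ?_, ?_, ?_⟩
    · rw [Fin.cons_injective_iff]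
      refine ⟨?_, hg1⟩
      rintro ⟨i, hi⟩
      exact hne i hi.symm
    · intro i
      refine Fin.cases ?_ (fun i => ?_) i
      · simpa using hvL
      · simpa using hg2 i
    · intro i j
      refine Fin.cases ?_ (fun i => ?_) i
      · refine Fin.cases ?_ (fun j => ?_) j
        · intro h2
          exact absurd h2 (lt_irrefl _)
        · intro h2
          simp only [Fin.cons_zero, Fin.cons_succ] at h2 ⊢
          exact hdn j h2
      · refine Fin.cases ?_ (fun j => ?_) j
        · intro h2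
          simp only [Fin.cons_zero, Fin.cons_succ] at h2 ⊢
          exact hup i h2
        · intro h2
          simp only [Fin.cons_succ] at h2 ⊢
          exact hg3 i j h2

open Classical in
/-- **a positive proportion of the differences** -/
theorem dens : ∃ (C : ℕ) (δ : ℝ), 0 < δ ∧ ∃ H₀ : ℕ, ∀ H : ℕ, H₀ ≤ H → ∃ c : ℝ, 0 < c ∧
    ∀ᶠ X : ℕ in atTop, δ * H ≤
      (((Icc 1 H).filter (fun h => c * X / l4 X ^ C ≤ (cnt C h X : ℝ))).card : ℝ) := by
  obtain ⟨k₁, W₀, C, hk₁, hW₀, hcore⟩ := core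
  refine ⟨C, 1 / (24 * W₀ * k₁), by positivity, 24 * W₀ * k₁, fun H hH => ?_⟩
  obtain ⟨L, hL⟩ : ∃ L : ℕ, L = H / (6 * W₀) := ⟨_, rfl⟩
  have hLH : 6 * W₀ * L ≤ H := by rw [hL]; exact Nat.mul_div_le _ _
  obtain ⟨c, hc, X₀, hX₀⟩ := hcore (W₀ * L)
  refine ⟨c, hc, ?_⟩
  filter_upwards [eventually_ge_atTop X₀] with X hX
  obtain ⟨A, hA⟩ : ∃ A : Finset ℕ, A = (Icc 1 L).filter
    (fun t => c * X / l4 X ^ C ≤ (cnt C (6 * (W₀ * t)) X : ℝ)) := ⟨_, rfl⟩
  have hbig : L < k₁ * (2 * A.card + 1) := by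
    by_contra hcon
    push Not at hcon
    obtain ⟨g, hg1, hg2, hg3⟩ := greedy A k₁ L hcon
    obtain ⟨i, j, hij, hcnt⟩ := hX₀ X hX (fun i => W₀ * g i) (by
      intro i j h
      exact hg1 (Nat.eq_of_mul_eq_mul_left hW₀ h)) (fun i => Nat.mul_le_mul_left _ (hg2 i))
      (fun i => dvd_mul_right _ _)
    have h1 : g i < g j := Nat.lt_of_mul_lt_mul_left hij
    apply hg3 i j h1
    rw [hA, mem_filter, mem_Icc]
    have h2 := hg2 j
    refine ⟨by omega, ?_⟩
    rw [Nat.mul_sub]
    exact hcnt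
  have hsub : A.card ≤ ((Icc 1 H).filter (fun h => c * X / l4 X ^ C ≤ (cnt C h X : ℝ))).card := by
    apply card_le_card_of_injOn (fun t => 6 * (W₀ * t))
    · intro t ht
      rw [mem_coe, hA, mem_filter, mem_Icc] at ht
      rw [mem_coe, mem_filter, mem_Icc]
      refine ⟨⟨?_, ?_⟩, ht.2⟩
      · have : 0 < W₀ * t := Nat.mul_pos hW₀ ht.1.1
        show 1 ≤ 6 * (W₀ * t)
        omega
      · show 6 * (W₀ * t) ≤ H
        calc 6 * (W₀ * t) = 6 * W₀ * t := by ring
          _ ≤ 6 * W₀ * L := Nat.mul_le_mul_left _ ht.1.2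
          _ ≤ H := hLH
    · intro t _ t' _ h
      have h1 : W₀ * t = W₀ * t' := by
        have h2 : 6 * (W₀ * t) = 6 * (W₀ * t') := h
        omega
      exact Nat.eq_of_mul_eq_mul_left hW₀ h1
  have h3 : (A.card : ℝ) ≤
      (((Icc 1 H).filter (fun h => c * X / l4 X ^ C ≤ (cnt C h X : ℝ))).card : ℝ) := by
    exact_mod_cast hsub
  refine le_trans ?_ h3
  have hk0 : (0 : ℝ) < k₁ := by exact_mod_cast hk₁
  have hW0 : (0 : ℝ) < W₀ := by exact_mod_cast hW₀
  -- `H < 6 W₀ (L + 1)`
  have h4 : H < 6 * W₀ * (L + 1) := by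
    rw [hL]
    have := Nat.lt_mul_div_succ H (show 0 < 6 * W₀ by omega)
    exact this
  have h5 : (H : ℝ) ≤ 6 * W₀ * (L + 1) := by exact_mod_cast h4.le
  have h6 : (L : ℝ) + 1 ≤ k₁ * (2 * A.card + 1) := by exact_mod_cast hbig
  have h7 : (24 * (W₀ : ℝ) * k₁) ≤ H := by exact_mod_cast hH
  rw [one_div, inv_mul_le_iff₀ (by positivity)]
  have h8 : (H : ℝ) ≤ 6 * W₀ * (k₁ * (2 * A.card + 1)) :=
    h5.trans (mul_le_mul_of_nonneg_left h6 (by positivity))
  have h9 : 6 * (W₀ : ℝ) * (k₁ * (2 * A.card + 1)) = 12 * W₀ * k₁ * A.card + 6 * W₀ * k₁ := by ring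
  have h10 : 24 * (W₀ : ℝ) * k₁ * A.card = 2 * (12 * W₀ * k₁ * A.card) := by ring
  have h11 : 24 * (W₀ : ℝ) * k₁ = 4 * (6 * W₀ * k₁) := by ring
  have h12 : 0 ≤ (A.card : ℝ) := Nat.cast_nonneg _
  have h13 : 0 ≤ 12 * (W₀ : ℝ) * k₁ * A.card := by positivity
  rw [h9] at h8
  rw [h11] at h7
  linarith

end Pool.Agent.K6.H45.EA
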