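import Pool.Agent.K6.H45.EA.Core2

set_option autoImplicit false
set_option maxHeartbeats 1000000

/-! # The first summand: many primes in a pattern, the second summand in an arbitrary fairly dense set -/

namespace Pool.Agent.K6.H45.EA

open Finset Filter
open Pool.Agent.N646.RG.Lam (lamR1 Rs')
open Pool.Agent.Y827.GS (Adf)

/-- `n = k + m` with `m` in `S` and `6 (k + v) - 1` prime for all `v` in `V` -/
def DecS (V : Finset ℤ) (S : Finset ℕ) (n : ℕ) : Prop :=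
  ∃ k m : ℕ, 1 ≤ k ∧ 1 ≤ m ∧ k + m = n ∧ m ∈ S ∧ ∀ v ∈ V, (6 * ((k : ℤ) + v) - 1).toNat.Prime

open Classical in
/-- **K side** -/
theorem kside (k₂ : ℕ) (hk₂ : 2 ≤ k₂) : ∃ k₁ W₀ g : ℕ, 1 ≤ k₁ ∧ 1 ≤ W₀ ∧ 2 ≤ g ∧
    ∀ B U : ℕ, ∃ c : ℝ, 0 < c ∧ ∃ X₀ : ℕ, ∀ X : ℕ, X₀ ≤ X →
    ∀ G : Fin k₁ → ℕ, Function.Injective G → (∀ i, G i ≤ U) → (∀ i, W₀ ∣ G i) →
    ∃ f : Fin k₂ → Fin k₁, Function.Injective f ∧
    ∀ T : ℕ, (T : ℝ) ≤ Real.log X ^ (g + 1) →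
      Real.log ((16 * X : ℕ) : ℝ) ^ g * Real.log (Real.log ((16 * X : ℕ) : ℝ)) ^ (B + 1) ≤ 2 * T →
    ∀ S : Finset ℕ, S ⊆ Icc 1 T → (T : ℝ) ≤ #S * Real.log T ^ B → ∀ a : Fin k₂,
      c * X / l4 X ^ (2 * g) ≤ (((Ioc X (10 * X)).filter
        (DecS (univ.image (fun b => (G (f b) : ℤ) - G (f a))) S)).card : ℝ) := by
  obtain ⟨T₁, hT₁⟩ : ∃ T₁ : ℕ, T₁ = 4 * k₂ := ⟨_, rfl⟩
  obtain ⟨K₁, hK₁, δ, hδ, hlam⟩ := lamR1 T₁ (k₂ - 1) (by omega) (by
    rw [Nat.cast_sub (by omega), hT₁]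
    push_cast
    have : (2 : ℝ) ≤ k₂ := by exact_mod_cast hk₂
    linarith)
  obtain ⟨s₀, c₁, hc₁, hN⟩ := hlam 6
  obtain ⟨g, hg⟩ : ∃ g : ℕ, g = T₁ * K₁ + 1 := ⟨_, rfl⟩
  have hcardι : Fintype.card (Option (Fin T₁ × Fin K₁)) = g := by
    rw [Fintype.card_option, Fintype.card_prod, Fintype.card_fin, Fintype.card_fin, hg]
  have hTK : 1 ≤ T₁ * K₁ := Nat.mul_pos (by omega) hK₁
  have hg2 : 2 ≤ g := by omega
  refine ⟨T₁ * K₁, (T₁ * K₁).factorial, g, hTK, Nat.factorial_pos _, hg2, fun B U => ?_⟩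
  -- the constants
  obtain ⟨c₂, hc₂, N₁, hms⟩ := unifF ((Fintype.piFinset (fun _ : Fin T₁ × Fin K₁ => range (U + 1))) ×ˢ
      range (s₀ + 1))
    (fun a c N₀ => Good (Fk a.1 a.2) → ∀ N : ℕ, N₀ ≤ N → ∀ K : Finset ℕ, K ⊆ Icc 1 N →
      (∀ n ∈ K, Rf (Fk a.1 a.2) δ N n) → c₁ * N / Real.log N ^ g ≤ #K →
      ∀ T : ℕ, (T : ℝ) ≤ Real.log N ^ (g + 1) →
        Real.log N ^ g * Real.log (Real.log N) ^ (B + 1) ≤ 2 * T →
      ∀ S : Finset ℕ, S ⊆ Icc 1 T → (T : ℝ) ≤ #S * Real.log T ^ B →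
      c * N / l4 N ^ (2 * g) ≤ #((S ×ˢ K).image (fun z => z.1 + z.2)))
    (by
      intro a c c' N N' hc' hcc hNN h hgood M hM K hK1 hK2 hK3 T hT1 hT2 S hS1 hS2
      have h1 := h hgood M (hNN.trans hM) K hK1 hK2 hK3 T hT1 hT2 S hS1 hS2
      refine le_trans ?_ h1
      have h2 : 0 ≤ l4 (M : ℝ) ^ (2 * g) := by
        rw [pow_mul]
        positivity
      apply div_le_div_of_nonneg_right _ h2
      exact mul_le_mul_of_nonneg_right hcc (Nat.cast_nonneg _))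
    (by
      intro a
      by_cases hgood : Good (Fk a.1 a.2)
      · obtain ⟨c, hc, N₀, h⟩ := many_sums (Fk a.1 a.2) hgood δ hδ c₁ hc₁ B
        rw [hcardι] at h
        exact ⟨c, hc, N₀, fun _ => h⟩
      · exact ⟨1, one_pos, 0, fun h => absurd h hgood⟩)
  refine ⟨c₂ / 2 ^ (2 * g), by positivity, ?_⟩
  have hl1 := Real.tendsto_log_atTop
  have hX : Tendsto (fun X : ℕ => (X : ℝ)) atTop atTop := tendsto_natCast_atTop_atTop
  have h16 : Tendsto (fun X : ℕ => 16 * X) atTop atTop :=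
    tendsto_atTop_mono (fun X => by show X ≤ 16 * X; omega) tendsto_id
  have hlp : ∀ᶠ X : ℕ in atTop, Real.log X ^ (g + 1) ≤ X := by
    have h := ((isLittleO_log_rpow_rpow_atTop ((g + 1 : ℕ) : ℝ) (by norm_num : (0 : ℝ) < 1)).comp_tendsto
      hX).bound (by norm_num : (0 : ℝ) < 1)
    filter_upwards [h, eventually_ge_atTop 1] with X hX hX1
    have hX1' : (1 : ℝ) ≤ X := by exact_mod_cast hX1
    have hl := Real.log_nonneg hX1'
    simp only [Function.comp_def, Real.rpow_natCast, Real.rpow_one, one_mul] at hX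
    rw [Real.norm_of_nonneg (by positivity), Real.norm_of_nonneg (by positivity)] at hX
    exact hX
  obtain ⟨X₀, hX₀⟩ := eventually_atTop.1 (((h16.eventually hN).and ev_l4).and
      (hlp.and (eventually_ge_atTop (N₁ + 6 * U + s₀ + 100))))
  refine ⟨X₀, fun X hXX G hG hGU hGW => ?_⟩
  obtain ⟨⟨hN, hl4a, hl4b, hl4c⟩, hlp, hXbig⟩ := hX₀ X hXX
  obtain ⟨N, hNd⟩ : ∃ N : ℕ, N = 16 * X := ⟨_, rfl⟩
  rw [← hNd] at hN hl4b hl4c ⊢
  have hXr : (100 : ℝ) ≤ X := by exact_mod_cast (by omega : 100 ≤ X)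
  have hNr : (N : ℝ) = 16 * X := by rw [hNd]; push_cast; ring
  -- the positions
  obtain ⟨G', hG'⟩ : ∃ G' : Fin T₁ × Fin K₁ → ℕ, ∀ x, G' x = G (finProdFinEquiv x) :=
    ⟨_, fun _ => rfl⟩
  have hG'inj : Function.Injective G' := by
    intro x y h
    rw [hG', hG'] at h
    exact finProdFinEquiv.injective (hG h)
  have hG'U : ∀ x, G' x ≤ U := fun x => by rw [hG']; exact hGU _
  have hG'p : ∀ p : ℕ, p.Prime → p ≤ T₁ * K₁ → ∀ x, p ∣ G' x := by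
    intro p hp hpk x
    rw [hG']
    exact ((Nat.Prime.dvd_factorial hp).2 hpk).trans (hGW _)
  have hinj : Function.Injective (fun x : Fin T₁ × Fin K₁ => ((6 : ℤ), 6 * (G' (x.1, x.2) : ℤ) - 1)) := by
    intro x y hxy
    have h1 := (Prod.ext_iff.1 hxy).2
    simp only at h1
    have h2 : G' (x.1, x.2) = G' (y.1, y.2) := by omega
    exact hG'inj h2
  obtain ⟨s, S, σ, hs, -, hadm, hS, hcard⟩ := hN (fun a b => ((6 : ℤ), 6 * (G' (a, b) : ℤ) - 1)) hinj (by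
      intro a b
      have h1 := hG'U (a, b)
      refine ⟨by norm_num, by norm_num, ?_, ⟨G' (a, b), -1, by ring⟩, ?_⟩
      · show |6 * (G' (a, b) : ℤ) - 1| ≤ N
        rw [abs_le]
        constructor <;> omega
      · intro t ht1 _
        show (N : ℝ) / 24 ≤ ((6 : ℤ) : ℝ) * t + ((6 * (G' (a, b) : ℤ) - 1 : ℤ) : ℝ)
        push_cast
        have : (0 : ℝ) ≤ G' (a, b) := Nat.cast_nonneg _
        linarith) (by
      intro p hp hpk
      refine ⟨0, fun a b h => ?_⟩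
      simp only at h
      have h1 : (p : ℤ) ∣ (G' (a, b) : ℤ) := by exact_mod_cast hG'p p hp (by omega) (a, b)
      have h2 : (p : ℤ) ∣ 1 := by
        have h3 : (1 : ℤ) = 6 * (G' (a, b) : ℤ) - ((6 : ℤ) * 0 + (6 * (G' (a, b) : ℤ) - 1)) := by ring
        rw [h3]
        exact dvd_sub (h1.mul_left _) h
      have h3 : p ∣ 1 := by exact_mod_cast h2
      exact hp.one_lt.ne' (Nat.dvd_one.1 h3))
  have hgood : Good (Fk G' s) := by
    apply good_Fk G' hG'inj s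
    intro p hp
    obtain ⟨r, h1, h2⟩ := hadm p hp
    exact ⟨r, h1, fun x => h2 x.1 x.2⟩
  obtain ⟨K, hK⟩ : ∃ K : Finset ℕ, K = Rs' (fun a b => ((6 : ℤ), 6 * (G' (a, b) : ℤ) - 1)) δ s S σ N :=
    ⟨_, rfl⟩
  rw [← hK] at hcard
  have hKm : ∀ n ∈ K, 1 ≤ n ∧ n ≤ N ∧ X ≤ n ∧ n ≤ 8 * X + s₀ ∧ Rf (Fk G' s) δ N n ∧
      ∀ a ∈ S, (6 * (n + G' (a, σ a)) - 1).Prime := by
    intro n hn
    rw [hK] at hn
    unfold Rs' at hn
    rw [mem_filter, mem_Icc] at hn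
    obtain ⟨⟨h1, h2⟩, h3, h4, h5, h6, h7⟩ := hn
    refine ⟨h1, h2, ?_, ?_, ?_, ?_⟩
    · rw [hNr] at h3
      have : (X : ℝ) ≤ n := by linarith
      exact_mod_cast this
    · rw [hNr] at h4
      have h8 : (n : ℝ) ≤ 8 * X + s := by linarith
      have h9 : n ≤ 8 * X + s := by exact_mod_cast h8
      omega
    · rintro (_ | x) p hp hlp
      · show ¬ (p : ℤ) ∣ 1 * (n : ℤ) + -(s : ℤ)
        rw [one_mul, ← sub_eq_add_neg]
        exact h5 p hp hlp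
      · exact h6 x.1 x.2 p hp hlp
    · intro a ha
      have h8 := h7 a ha
      have h9 : ((6 : ℤ) * (n : ℤ) + (6 * (G' (a, σ a) : ℤ) - 1)).toNat = 6 * (n + G' (a, σ a)) - 1 := by
        omega
      rw [h9] at h8
      exact h8
  -- the classes
  obtain ⟨S', hS'S, hS'c⟩ := Finset.exists_subset_card_eq (show k₂ ≤ S.card by omega)
  obtain ⟨e, he1, he2⟩ : ∃ e : Fin k₂ → Fin T₁, Function.Injective e ∧ ∀ x, e x ∈ S := by
    refine ⟨fun x => S'.orderEmbOfFin hS'c x, ?_, fun x => ?_⟩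
    · exact (S'.orderEmbOfFin hS'c).injective
    · exact hS'S (Finset.orderEmbOfFin_mem _ _ _)
  refine ⟨fun b => finProdFinEquiv (e b, σ (e b)), ?_, ?_⟩
  · intro x y h
    exact he1 (Prod.ext_iff.1 (finProdFinEquiv.injective h)).1
  intro T hTX hTge SM hSM1 hSM3 a
  have hlX0 : 0 ≤ Real.log X := Real.log_nonneg (by linarith)
  have hT1 : (T : ℝ) ≤ Real.log N ^ (g + 1) := by
    refine hTX.trans (pow_le_pow_left₀ hlX0 ?_ _)
    apply Real.log_le_log (by linarith)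
    rw [hNr]
    linarith
  have hmain := hms (G', s) (by
    rw [mem_product, Fintype.mem_piFinset]
    exact ⟨fun x => mem_range.2 (by have := hG'U x; simp only; omega), mem_range.2 (by simp only; omega)⟩)
    hgood N (by omega) K (fun n hn => by
      have := hKm n hn
      rw [mem_Icc]
      exact ⟨this.1, this.2.1⟩) (fun n hn => (hKm n hn).2.2.2.2.1) (by
      rw [hg, mul_div_assoc]
      exact hcard) T hT1 hTge SM hSM1 hSM3
  obtain ⟨I, hI⟩ : ∃ I : Finset ℕ, I = (SM ×ˢ K).image (fun z => z.1 + z.2) := ⟨_, rfl⟩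
  rw [← hI] at hmain
  have hTX2 : T ≤ X := by
    have : (T : ℝ) ≤ X := by linarith
    exact_mod_cast this
  -- the count
  have hcnt : I.card ≤ ((Ioc X (10 * X)).filter (DecS (univ.image (fun b : Fin k₂ =>
      (G (finProdFinEquiv (e b, σ (e b))) : ℤ) - G (finProdFinEquiv (e a, σ (e a))))) SM)).card := by
    rw [← Finset.card_image_of_injective I (add_left_injective (G' (e a, σ (e a))))]
    apply card_le_card
    intro n' hn'
    obtain ⟨v, hv, rfl⟩ := mem_image.1 hn'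
    rw [hI] at hv
    obtain ⟨z, hz, rfl⟩ := mem_image.1 hv
    obtain ⟨hz1, hz2⟩ := mem_product.1 hz
    obtain ⟨m1, m2⟩ := mem_Icc.1 (hSM1 hz1)
    obtain ⟨k1, k2, k3, k4, -, k6⟩ := hKm z.2 hz2
    have hU1 := hG'U (e a, σ (e a))
    rw [mem_filter, mem_Ioc]
    refine ⟨⟨by omega, by omega⟩, z.2 + G' (e a, σ (e a)), z.1, by omega, m1,
      by omega, hz1, ?_⟩
    intro v hv
    obtain ⟨b, -, rfl⟩ := mem_image.1 hv
    rw [← hG', ← hG']
    have h1 := k6 (e b) (he2 b)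
    have h2 : (6 * (((z.2 + G' (e a, σ (e a)) : ℕ) : ℤ) + ((G' (e b, σ (e b)) : ℤ) -
        G' (e a, σ (e a)))) - 1).toNat = 6 * (z.2 + G' (e b, σ (e b))) - 1 := by
      push_cast
      omega
    rw [h2]
    exact h1
  have hcntr : (#I : ℝ) ≤ (((Ioc X (10 * X)).filter (DecS (univ.image (fun b : Fin k₂ =>
      (G (finProdFinEquiv (e b, σ (e b))) : ℤ) - G (finProdFinEquiv (e a, σ (e a))))) SM)).card : ℝ) := by
    exact_mod_cast hcnt
  refine le_trans ?_ (hmain.trans hcntr)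
  have h1 : l4 (N : ℝ) ^ (2 * g) ≤ 2 ^ (2 * g) * l4 (X : ℝ) ^ (2 * g) := by
    rw [← mul_pow]
    exact pow_le_pow_left₀ hl4b.le hl4c _
  have h2 : 0 < l4 (N : ℝ) ^ (2 * g) := pow_pos hl4b _
  have h3 : 0 < l4 (X : ℝ) ^ (2 * g) := pow_pos (by linarith) _
  rw [div_le_div_iff₀ h3 h2]
  have hX0 : (0 : ℝ) < X := by linarith
  calc c₂ / 2 ^ (2 * g) * X * l4 (N : ℝ) ^ (2 * g) ≤
        c₂ / 2 ^ (2 * g) * X * (2 ^ (2 * g) * l4 (X : ℝ) ^ (2 * g)) := by gcongr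
    _ = c₂ * X * l4 (X : ℝ) ^ (2 * g) := by field_simp
    _ ≤ c₂ * N * l4 (X : ℝ) ^ (2 * g) := by
      have : (X : ℝ) ≤ N := by rw [hNr]; linarith
      gcongr

end Pool.Agent.K6.H45.EA
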