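import Pool.Agent.W123.RP.Dens
import Pool.Agent.W123.RP.Pair
import Pool.Agent.W123.RP.Twin

set_option autoImplicit false

/-! # Sieve data of a finite family of linear forms -/

namespace Pool.Agent.K6.H45.EA

open Finset Filter Pool.Agent.H373R2.T7 Pool.Agent.W123.RP

variable {ι : Type} [Fintype ι]

/-- one of the forms is divisible by `p` -/
def QF (F : ι → ℤ × ℤ) (p m : ℕ) : Prop := ∃ i, (p : ℤ) ∣ (F i).1 * m + (F i).2

/-- the resultant of two forms, one of them shifted by `h` -/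
def lf (F : ι → ℤ × ℤ) (i j : ι) (h : ℕ) : ℤ :=
  (F i).1 * (F j).1 * h + ((F i).1 * (F j).2 - (F j).1 * (F i).2)

/-- the collisions -/
def RF (F : ι → ℤ × ℤ) (h : ℕ) : ℤ := ∏ z : ι × ι, lf F z.1 z.2 h

/-- admissible families of pairwise non proportional primitive forms -/
structure Good (F : ι → ℤ × ℤ) : Prop where
  ne : ∀ i, (F i).1 ≠ 0
  prim : ∀ i, IsCoprime (F i).1 (F i).2
  np : ∀ i j, i ≠ j → (F i).1 * (F j).2 - (F j).1 * (F i).2 ≠ 0
  adm : ∀ p : ℕ, p.Prime → ∃ r : ℤ, ∀ i, ¬ (p : ℤ) ∣ (F i).1 * r + (F i).2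

lemma QF_per (F : ι → ℤ × ℤ) (p n : ℕ) : QF F p n ↔ QF F p (n % p) := by
  unfold QF
  apply exists_congr
  intro i
  obtain ⟨k, hk⟩ := Twin.mod_dvd p n
  apply Int.dvd_iff_dvd_of_dvd_sub
  refine ⟨(F i).1 * k, ?_⟩
  calc (F i).1 * (n : ℤ) + (F i).2 - ((F i).1 * ((n % p : ℕ) : ℤ) + (F i).2) =
        (F i).1 * ((n : ℤ) - ((n % p : ℕ) : ℤ)) := by ring
    _ = p * ((F i).1 * k) := by rw [hk]; ring

open Classical in
lemma one_root (p : ℕ) (hp : p.Prime) (a b : ℤ) (hab : IsCoprime a b) :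
    ((range p).filter (fun r : ℕ => (p : ℤ) ∣ a * r + b)).card ≤ 1 := by
  by_cases ha : (p : ℤ) ∣ a
  · have h0 : (range p).filter (fun r : ℕ => (p : ℤ) ∣ a * r + b) = ∅ := by
      rw [filter_eq_empty_iff]
      intro r _ h
      have h1 : (p : ℤ) ∣ b := (Int.dvd_add_right (ha.mul_right _)).1 h
      have h2 := hab.isUnit_of_dvd' ha h1
      have h3 := Int.isUnit_iff.1 h2
      have := hp.two_le
      omega
    rw [h0, card_empty]
    omega
  · exact (linear_card p hp a b ha).le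

open Classical in
lemma QF_few (F : ι → ℤ × ℤ) (hF : Good F) (p : ℕ) (hp : p.Prime) :
    nuB (QF F) p ≤ Fintype.card ι := by
  unfold nuB
  have h1 : (range p).filter (fun r => QF F p r) ⊆
      univ.biUnion (fun i : ι => (range p).filter (fun r : ℕ => (p : ℤ) ∣ (F i).1 * r + (F i).2)) := by
    intro r hr
    rw [mem_filter] at hr
    obtain ⟨h1, i, hi⟩ := hr
    rw [mem_biUnion]
    exact ⟨i, mem_univ _, mem_filter.2 ⟨h1, hi⟩⟩
  refine (card_le_card h1).trans (card_biUnion_le.trans ?_)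
  refine (sum_le_sum (fun i _ => one_root p hp _ _ (hF.prim i))).trans ?_
  rw [sum_const, smul_eq_mul, mul_one, Finset.card_univ]

lemma QF_adm (F : ι → ℤ × ℤ) (hF : Good F) (p : ℕ) (hp : p.Prime) : nuB (QF F) p < p := by
  classical
  obtain ⟨r, hr⟩ := hF.adm p hp
  obtain ⟨t, ht⟩ : ∃ t : ℕ, t = (r % p).toNat := ⟨_, rfl⟩
  have hp0 : (0 : ℤ) < p := by exact_mod_cast hp.pos
  have h0 := Int.emod_nonneg r hp0.ne'
  have h1 := Int.emod_lt_of_pos r hp0
  have ht1 : (t : ℤ) = r % p := by rw [ht, Int.toNat_of_nonneg h0]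
  have htp : t < p := by omega
  unfold nuB
  have h2 : (range p).filter (fun r => QF F p r) ⊆ (range p).erase t := by
    intro u hu
    rw [mem_filter] at hu
    rw [mem_erase]
    refine ⟨?_, hu.1⟩
    rintro rfl
    obtain ⟨-, i, hi⟩ := hu
    apply hr i
    have h3 : (p : ℤ) ∣ ((F i).1 * r + (F i).2) - ((F i).1 * (u : ℤ) + (F i).2) := by
      have h4 : (p : ℤ) ∣ r - u := by
        rw [ht1]
        exact Int.dvd_self_sub_emod
      have h5 : ((F i).1 * r + (F i).2) - ((F i).1 * (u : ℤ) + (F i).2) = (F i).1 * (r - u) := by ring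
      rw [h5]
      exact h4.mul_left _
    exact (Int.dvd_iff_dvd_of_dvd_sub h3).2 hi
  have h3 := card_le_card h2
  rw [card_erase_of_mem (mem_range.2 htp), card_range] at h3
  have := hp.pos
  omega

lemma perF (F : ι → ℤ × ℤ) (hF : Good F) : PerB (QF F) (Fintype.card ι) :=
  ⟨QF_per F, QF_few F hF⟩

lemma lf_coll (F : ι → ℤ × ℤ) (i j : ι) (p h m : ℕ) (h1 : (p : ℤ) ∣ (F i).1 * m + (F i).2)
    (h2 : (p : ℤ) ∣ (F j).1 * ((m + h : ℕ) : ℤ) + (F j).2) : (p : ℤ) ∣ lf F i j h := by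
  have h3 : lf F i j h = (F i).1 * ((F j).1 * ((m + h : ℕ) : ℤ) + (F j).2) -
      (F j).1 * ((F i).1 * m + (F i).2) := by
    unfold lf
    push_cast
    ring
  rw [h3]
  exact dvd_sub (h2.mul_left _) (h1.mul_left _)

lemma RF_coll (F : ι → ℤ × ℤ) (p h m : ℕ) (h1 : QF F p m) (h2 : QF F p (m + h)) :
    (p : ℤ) ∣ RF F h := by
  obtain ⟨i, hi⟩ := h1
  obtain ⟨j, hj⟩ := h2
  exact (lf_coll F i j p h m hi hj).trans (Finset.dvd_prod_of_mem _ (mem_univ (i, j)))

lemma lf_per (F : ι → ℤ × ℤ) (i j : ι) (p n : ℕ) : (p : ℤ) ∣ lf F i j n - lf F i j (n % p) := by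
  obtain ⟨k, hk⟩ := Twin.mod_dvd p n
  refine ⟨(F i).1 * (F j).1 * k, ?_⟩
  unfold lf
  calc (F i).1 * (F j).1 * (n : ℤ) + ((F i).1 * (F j).2 - (F j).1 * (F i).2) -
        ((F i).1 * (F j).1 * ((n % p : ℕ) : ℤ) + ((F i).1 * (F j).2 - (F j).1 * (F i).2)) =
        (F i).1 * (F j).1 * ((n : ℤ) - ((n % p : ℕ) : ℤ)) := by ring
    _ = p * ((F i).1 * (F j).1 * k) := by rw [hk]; ring

open Classical in
lemma collF (F : ι → ℤ × ℤ) (p0 : ℕ) (hp0 : ∀ i, (F i).1.natAbs ≤ p0)
    (hne : ∀ i, (F i).1 ≠ 0) :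
    Coll (RF F) p0 (Fintype.card (ι × ι)) := by
  constructor
  · intro p n
    unfold RF
    by_cases hp : p.Prime
    · have hpi : Prime (p : ℤ) := Nat.prime_iff_prime_int.1 hp
      rw [hpi.dvd_finsetProd_iff, hpi.dvd_finsetProd_iff]
      apply exists_congr
      intro z
      exact and_congr_right fun _ => Int.dvd_iff_dvd_of_dvd_sub (lf_per F z.1 z.2 p n)
    · have h1 : ∀ s : Finset (ι × ι), (p : ℤ) ∣ (∏ z ∈ s, lf F z.1 z.2 n) -
          ∏ z ∈ s, lf F z.1 z.2 (n % p) := by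
        intro s
        induction s using Finset.induction_on with
        | empty => simp
        | insert a s ha ih =>
          rw [Finset.prod_insert ha, Finset.prod_insert ha]
          have e : lf F a.1 a.2 n * ∏ z ∈ s, lf F z.1 z.2 n -
              lf F a.1 a.2 (n % p) * ∏ z ∈ s, lf F z.1 z.2 (n % p) =
              lf F a.1 a.2 n * (∏ z ∈ s, lf F z.1 z.2 n - ∏ z ∈ s, lf F z.1 z.2 (n % p)) +
              (lf F a.1 a.2 n - lf F a.1 a.2 (n % p)) * ∏ z ∈ s, lf F z.1 z.2 (n % p) := by ring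
          rw [e]
          exact dvd_add (ih.mul_left _) ((lf_per F a.1 a.2 p n).mul_right _)
      exact Int.dvd_iff_dvd_of_dvd_sub (h1 univ)
  · intro p hp hpp
    have hpi : Prime (p : ℤ) := Nat.prime_iff_prime_int.1 hp
    have hnd : ∀ i, ¬ (p : ℤ) ∣ (F i).1 := by
      intro i h
      have h1 : p ∣ (F i).1.natAbs := Int.natCast_dvd.1 h
      have h2 := Nat.le_of_dvd (Int.natAbs_pos.2 (hne i)) h1
      have := hp0 i
      omega
    have h1 : (range p).filter (fun r => (p : ℤ) ∣ RF F r) ⊆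
        univ.biUnion (fun z : ι × ι => (range p).filter (fun r : ℕ => (p : ℤ) ∣
          ((F z.1).1 * (F z.2).1) * r + ((F z.1).1 * (F z.2).2 - (F z.2).1 * (F z.1).2))) := by
      intro r hr
      rw [mem_filter] at hr
      obtain ⟨h1, h2⟩ := hr
      unfold RF at h2
      rw [hpi.dvd_finsetProd_iff] at h2
      obtain ⟨z, hz, h3⟩ := h2
      rw [mem_biUnion]
      exact ⟨z, hz, mem_filter.2 ⟨h1, h3⟩⟩
    refine (card_le_card h1).trans (card_biUnion_le.trans ?_)
    refine (sum_le_sum (fun z _ => (linear_card p hp _ _ ?_).le)).trans ?_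
    · intro h
      rcases hpi.dvd_mul.1 h with h | h
      · exact hnd _ h
      · exact hnd _ h
    · rw [sum_const, smul_eq_mul, mul_one, Finset.card_univ]

/-- a common bound -/
def bd (F : ι → ℤ × ℤ) : ℕ :=
  2 * Fintype.card ι + (∑ i, (F i).1.natAbs) +
    ∑ z : ι × ι, ((F z.1).1 * (F z.2).2 - (F z.2).1 * (F z.1).2).natAbs

lemma bd_slope (F : ι → ℤ × ℤ) (i : ι) : (F i).1.natAbs ≤ bd F := by
  have h1 := Finset.single_le_sum (f := fun i => (F i).1.natAbs) (fun i _ => Nat.zero_le _) (mem_univ i)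
  unfold bd
  omega

lemma bd_res (F : ι → ℤ × ℤ) (i j : ι) :
    ((F i).1 * (F j).2 - (F j).1 * (F i).2).natAbs ≤ bd F := by
  have h1 : ((F i).1 * (F j).2 - (F j).1 * (F i).2).natAbs ≤
      ∑ z : ι × ι, ((F z.1).1 * (F z.2).2 - (F z.2).1 * (F z.1).2).natAbs :=
    Finset.single_le_sum (f := fun z : ι × ι =>
      ((F z.1).1 * (F z.2).2 - (F z.2).1 * (F z.1).2).natAbs) (fun i _ => Nat.zero_le _)
      (mem_univ (i, j))
  unfold bd
  omega

theorem sdataF (F : ι → ℤ × ℤ) (hF : Good F) :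
    Sdata (QF F) (RF F) (Fintype.card ι) (bd F) (Fintype.card (ι × ι)) where
  per := perF F hF
  adm := QF_adm F hF
  big := by unfold bd; omega
  coll := fun p _ _ h m h1 h2 => RF_coll F p h m h1 h2
  cR := collF F (bd F) (bd_slope F) hF.ne

open Classical in
/-- all roots are different modulo large primes -/
lemma nu_ge (F : ι → ℤ × ℤ) (hF : Good F) (p : ℕ) (hp : p.Prime) (hpb : bd F < p) :
    Fintype.card ι ≤ nuB (QF F) p := by
  have hpi : Prime (p : ℤ) := Nat.prime_iff_prime_int.1 hp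
  have hnd : ∀ i, ¬ (p : ℤ) ∣ (F i).1 := by
    intro i h
    have h1 : p ∣ (F i).1.natAbs := Int.natCast_dvd.1 h
    have h2 := Nat.le_of_dvd (Int.natAbs_pos.2 (hF.ne i)) h1
    have := bd_slope F i
    omega
  have hroot : ∀ i, ∃ r : ℕ, r ∈ (range p).filter (fun r : ℕ => (p : ℤ) ∣ (F i).1 * r + (F i).2) := by
    intro i
    have h1 := linear_card p hp (F i).1 (F i).2 (hnd i)
    have h2 : 0 < ((range p).filter (fun r : ℕ => (p : ℤ) ∣ (F i).1 * r + (F i).2)).card := by omega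
    exact card_pos.1 h2
  choose ρ hρ using hroot
  have hinj : Function.Injective ρ := by
    intro i j hij
    by_contra hne
    have h1 := (mem_filter.1 (hρ i)).2
    have h2 := (mem_filter.1 (hρ j)).2
    rw [← hij] at h2
    have h3 : (p : ℤ) ∣ (F i).1 * (F j).2 - (F j).1 * (F i).2 := by
      have e : (F i).1 * (F j).2 - (F j).1 * (F i).2 =
          (F i).1 * ((F j).1 * (ρ i : ℤ) + (F j).2) - (F j).1 * ((F i).1 * (ρ i : ℤ) + (F i).2) := by ring
      rw [e]
      exact dvd_sub (h2.mul_left _) (h1.mul_left _)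
    have h4 : p ∣ ((F i).1 * (F j).2 - (F j).1 * (F i).2).natAbs := Int.natCast_dvd.1 h3
    have h5 := Nat.le_of_dvd (Int.natAbs_pos.2 (hF.np i j hne)) h4
    have := bd_res F i j
    omega
  unfold nuB
  rw [← Finset.card_univ, ← Finset.card_image_of_injective univ hinj]
  apply card_le_card
  intro r hr
  obtain ⟨i, -, rfl⟩ := mem_image.1 hr
  have h1 := mem_filter.1 (hρ i)
  exact mem_filter.2 ⟨h1.1, i, h1.2⟩

end Pool.Agent.K6.H45.EA
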