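import Pool.Agent.K6.H45.EA.Ks
import Pool.Agent.K6.H45.EA.Den
import Pool.Agent.Results.MP_ea8352_nt.AlmostAdmissible

set_option autoImplicit false
set_option maxHeartbeats 1000000

/-! # Mixed decompositions -/

namespace Pool.Agent.K6.H45.EA

open Finset Filter
open Pool.Agent.Results.MP_3509fd_nt.NeighboursOfAlmostMissing (AlmostMissing many)
open Pool.Agent.Results.MP_ea8352_nt.AlmostAdmissible (AlmostTwin twin_of_missing density)

/-- the forms `6 n - 1` and `6 n + 1` -/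
def FT (i : Fin 2) : ℤ × ℤ := (6, 2 * (i : ℤ) - 1)

lemma good_FT : Good FT where
  ne := fun i => by
    show (6 : ℤ) ≠ 0
    norm_num
  prim := fun i => by
    show IsCoprime (6 : ℤ) (2 * ((i : ℕ) : ℤ) - 1)
    have h : (i : ℕ) = 0 ∨ (i : ℕ) = 1 := by omega
    rcases h with h | h
    · rw [h]
      exact ⟨0, -1, by norm_num⟩
    · rw [h]
      exact ⟨0, 1, by norm_num⟩
  np := fun i j hij => by
    show (6 : ℤ) * (2 * ((j : ℕ) : ℤ) - 1) - 6 * (2 * ((i : ℕ) : ℤ) - 1) ≠ 0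
    intro h
    apply hij
    apply Fin.ext
    omega
  adm := fun p hp => by
    refine ⟨0, fun i h => ?_⟩
    have h' : (p : ℤ) ∣ 6 * 0 + (2 * ((i : ℕ) : ℤ) - 1) := h
    have h2 : (i : ℕ) = 0 ∨ (i : ℕ) = 1 := by omega
    have h3 : (p : ℤ) ∣ 1 := by
      rcases h2 with h2 | h2
      · rw [h2] at h'
        have h4 := (dvd_neg (α := ℤ)).2 h'
        norm_num at h4
        exact h4
      · rw [h2] at h'
        norm_num at h'
        exact h'
    have h4 : p ∣ 1 := by exact_mod_cast h3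
    exact hp.one_lt.ne' (Nat.dvd_one.1 h4)

open Classical in
/-- **Almost twin first summand** -/
theorem twinSums : ∃ r0 : ℕ, 2 ≤ r0 ∧ ∀ r : ℕ, r0 ≤ r → ∀ B : ℕ, ∃ c : ℝ, 0 < c ∧ ∃ X₀ : ℕ,
    ∀ X : ℕ, X₀ ≤ X → ∀ T : ℕ, (T : ℝ) ≤ Real.log ((2 * X : ℕ) : ℝ) ^ 3 →
      Real.log ((2 * X : ℕ) : ℝ) ^ 2 * Real.log (Real.log ((2 * X : ℕ) : ℝ)) ^ (B + 1) ≤ 2 * T →
    ∀ S : Finset ℕ, S ⊆ Icc 1 T → (T : ℝ) ≤ #S * Real.log T ^ B →
      c * X / l4 ((2 * X : ℕ) : ℝ) ^ 4 ≤ (((Ioc X (2 * X + T)).filter (fun n => ∃ k m : ℕ, 1 ≤ k ∧ 1 ≤ m ∧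
        k + m = n ∧ m ∈ S ∧ AlmostTwin (2 * r) (6 * k - 1))).card : ℝ) := by
  obtain ⟨r2, hr2, hmany⟩ := many
  refine ⟨max r2 2, le_max_right _ _, fun r hr B => ?_⟩
  have hr2' : 2 ≤ r := (le_max_right _ _).trans hr
  obtain ⟨κ, hκ, hmany⟩ := hmany r ((le_max_left _ _).trans hr)
  have hrpos : (0 : ℝ) < r := by exact_mod_cast (by omega : 0 < r)
  obtain ⟨c, hc, N₀, hms⟩ := many_sums FT good_FT (1 / (2 * r)) (by positivity) (κ / 2) (by positivity) B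
  rw [Fintype.card_fin] at hms
  obtain ⟨X₁, hX₁⟩ := eventually_atTop.1 hmany
  refine ⟨c, hc, max (max X₁ N₀) 12, fun X hX T hT1 hT2 S hS1 hS2 => ?_⟩
  have hXX₁ : X₁ ≤ X := (le_max_left _ _).trans ((le_max_left _ _).trans hX)
  have hXN₀ : N₀ ≤ X := (le_max_right _ _).trans ((le_max_left _ _).trans hX)
  have hX12 : 12 ≤ X := (le_max_right _ _).trans hX
  have hXr : (12 : ℝ) ≤ X := by exact_mod_cast hX12
  have hcard := hX₁ X hXX₁
  obtain ⟨K, hK⟩ : ∃ K : Finset ℕ, K = (Ioc X (2 * X)).filter (fun m => AlmostMissing r X m) := ⟨_, rfl⟩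
  rw [← hK] at hcard
  have hlX : 0 < Real.log X := Real.log_pos (by linarith)
  have hl2X : Real.log ((2 * X : ℕ) : ℝ) ≤ 2 * Real.log X := by
    have h1 := Real.log_le_log (by positivity) (show ((2 * X : ℕ) : ℝ) ≤ (X : ℝ) ^ 2 by
      push_cast; nlinarith)
    rw [Real.log_pow] at h1
    exact_mod_cast h1
  have hlX2 : Real.log X ≤ Real.log ((2 * X : ℕ) : ℝ) :=
    Real.log_le_log (by linarith) (by push_cast; linarith)
  have hrough : ∀ k ∈ K, Rf FT (1 / (2 * r)) (2 * X) k := by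
    intro k hk i p hp hlp
    rw [hK, mem_filter, mem_Ioc] at hk
    obtain ⟨⟨hk1, hk2⟩, h1, -, h3⟩ := hk
    have hpX : (p : ℝ) ≤ (X : ℝ) ^ (1 / (r : ℝ)) := by
      have hp0 : (0 : ℝ) < p := by exact_mod_cast hp.pos
      rw [← Real.log_le_log_iff hp0 (by positivity), Real.log_rpow (by linarith)]
      calc Real.log p ≤ 1 / (2 * r) * Real.log ((2 * X : ℕ) : ℝ) := hlp
        _ ≤ 1 / (2 * r) * (2 * Real.log X) := by gcongr
        _ = 1 / (r : ℝ) * Real.log X := by field_simp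
    have hpX2 : (p : ℝ) ≤ X := by
      refine hpX.trans ?_
      calc (X : ℝ) ^ (1 / (r : ℝ)) ≤ (X : ℝ) ^ (1 : ℝ) := by
            apply Real.rpow_le_rpow_of_exponent_le (by linarith)
            rw [div_le_one hrpos]
            exact_mod_cast (by omega : 1 ≤ r)
        _ = X := Real.rpow_one _
    have hpX3 : p ≤ X := by exact_mod_cast hpX2
    intro hd
    have hd' : (p : ℤ) ∣ 6 * (k : ℤ) + (2 * ((i : ℕ) : ℤ) - 1) := hd
    have h2 : (i : ℕ) = 0 ∨ (i : ℕ) = 1 := by omega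
    rcases h2 with h2 | h2
    · rw [h2] at hd'
      have h4 : (p : ℤ) ∣ ((6 * k - 1 : ℕ) : ℤ) := by
        rw [Nat.cast_sub (by omega)]
        push_cast
        have e : 6 * (k : ℤ) + (2 * ((0 : ℕ) : ℤ) - 1) = 6 * (k : ℤ) - 1 := by ring
        rw [e] at hd'
        exact hd'
      have h5 : p ∣ 6 * k - 1 := by exact_mod_cast h4
      have h6 := (Nat.prime_dvd_prime_iff_eq hp h1).1 h5
      omega
    · rw [h2] at hd'
      have h4 : (p : ℤ) ∣ ((6 * k + 1 : ℕ) : ℤ) := by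
        push_cast
        have e : 6 * (k : ℤ) + (2 * ((1 : ℕ) : ℤ) - 1) = 6 * (k : ℤ) + 1 := by push_cast; ring
        rw [e] at hd'
        exact hd'
      have h5 : p ∣ 6 * k + 1 := by exact_mod_cast h4
      have h6 := h3 p hp h5
      linarith
  have hKc : κ / 2 * ((2 * X : ℕ) : ℝ) / Real.log ((2 * X : ℕ) : ℝ) ^ 2 ≤ #K := by
    refine le_trans ?_ hcard
    have h1 : Real.log X ^ 2 ≤ Real.log ((2 * X : ℕ) : ℝ) ^ 2 := pow_le_pow_left₀ hlX.le hlX2 2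
    have h2 : κ / 2 * ((2 * X : ℕ) : ℝ) = κ * X := by push_cast; ring
    rw [h2]
    exact div_le_div_of_nonneg_left (by positivity) (by positivity) h1
  have hmain := hms (2 * X) (by omega) K (fun n hn => by
    rw [hK, mem_filter, mem_Ioc] at hn
    rw [mem_Icc]
    omega) hrough hKc T hT1 hT2 S hS1 hS2
  have hsub : (S ×ˢ K).image (fun z => z.1 + z.2) ⊆ (Ioc X (2 * X + T)).filter
      (fun n => ∃ k m : ℕ, 1 ≤ k ∧ 1 ≤ m ∧ k + m = n ∧ m ∈ S ∧ AlmostTwin (2 * r) (6 * k - 1)) := by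
    intro n hn
    obtain ⟨z, hz, rfl⟩ := mem_image.1 hn
    obtain ⟨hz1, hz2⟩ := mem_product.1 hz
    rw [hK, mem_filter, mem_Ioc] at hz2
    have h1 := mem_Icc.1 (hS1 hz1)
    rw [mem_filter, mem_Ioc]
    refine ⟨by omega, z.2, z.1, by omega, h1.1, by omega, hz1, ?_⟩
    exact twin_of_missing r X z.2 (by omega) hX12 (by omega) hz2.1.2 hz2.2
  have hcard2 : (#((S ×ˢ K).image (fun z => z.1 + z.2)) : ℝ) ≤ (((Ioc X (2 * X + T)).filter
      (fun n => ∃ k m : ℕ, 1 ≤ k ∧ 1 ≤ m ∧ k + m = n ∧ m ∈ S ∧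
        AlmostTwin (2 * r) (6 * k - 1))).card : ℝ) := by
    exact_mod_cast card_le_card hsub
  refine le_trans ?_ (hmain.trans hcard2)
  have h4 : 0 ≤ l4 ((2 * X : ℕ) : ℝ) ^ 4 := by positivity
  have e : 2 * 2 = 4 := rfl
  rw [e]
  apply div_le_div_of_nonneg_right _ h4
  push_cast
  nlinarith

/-- greedy choice: general form -/
lemma prop_of_hit (P : ℕ → Prop) (k₁ W₀ : ℕ) (hk₁ : 1 ≤ k₁) (hW₀ : 1 ≤ W₀) (H : ℕ)
    (hH : 24 * W₀ * k₁ ≤ H)
    (h : ∀ G : Fin k₁ → ℕ, Function.Injective G → (∀ i, G i ≤ H) → (∀ i, W₀ ∣ G i) →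
      ∃ i j, G i < G j ∧ P (6 * (G j - G i))) :
    by classical exact 1 / (24 * W₀ * k₁) * (H : ℝ) ≤ (((Icc 1 H).filter P).card : ℝ) := by
  classical
  obtain ⟨L, hL⟩ : ∃ L : ℕ, L = H / (6 * W₀) := ⟨_, rfl⟩
  have hLH : 6 * W₀ * L ≤ H := by rw [hL]; exact Nat.mul_div_le _ _
  have hLH2 : W₀ * L ≤ H := by nlinarith
  obtain ⟨A, hA⟩ : ∃ A : Finset ℕ, A = (Icc 1 L).filter (fun t => P (6 * (W₀ * t))) := ⟨_, rfl⟩
  have hbig : L < k₁ * (2 * A.card + 1) := by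
    by_contra hcon
    push Not at hcon
    obtain ⟨g, hg1, hg2, hg3⟩ := greedy A k₁ L hcon
    obtain ⟨i, j, hij, hcnt⟩ := h (fun i => W₀ * g i) (by
      intro i j h
      exact hg1 (Nat.eq_of_mul_eq_mul_left hW₀ h))
      (fun i => (Nat.mul_le_mul_left _ (hg2 i)).trans hLH2)
      (fun i => dvd_mul_right _ _)
    have h1 : g i < g j := Nat.lt_of_mul_lt_mul_left hij
    apply hg3 i j h1
    rw [hA, mem_filter, mem_Icc]
    have h2 := hg2 j
    refine ⟨by omega, ?_⟩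
    rw [Nat.mul_sub]
    exact hcnt
  have hsub : A.card ≤ ((Icc 1 H).filter P).card := by
    apply card_le_card_of_injOn (fun t => 6 * (W₀ * t))
    · intro t ht
      rw [mem_coe, hA, mem_filter, mem_Icc] at ht
      rw [mem_coe, mem_filter, mem_Icc]
      refine ⟨⟨?_, ?_⟩, ht.2⟩
      · have : 0 < W₀ * t := Nat.mul_pos hW₀ ht.1.1
        show 1 ≤ 6 * (W₀ * t)
        omega
      · show 6 * (W₀ * t) ≤ H
        calc 6 * (W₀ * t) = 6 * W₀ * t := by ring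
          _ ≤ 6 * W₀ * L := Nat.mul_le_mul_left _ ht.1.2
          _ ≤ H := hLH
    · intro t _ t' _ h
      have h1 : W₀ * t = W₀ * t' := by
        have h2 : 6 * (W₀ * t) = 6 * (W₀ * t') := h
        omega
      exact Nat.eq_of_mul_eq_mul_left hW₀ h1
  have h3 : (A.card : ℝ) ≤ (((Icc 1 H).filter P).card : ℝ) := by
    exact_mod_cast hsub
  refine le_trans ?_ h3
  have hk0 : (0 : ℝ) < k₁ := by exact_mod_cast hk₁
  have hW0 : (0 : ℝ) < W₀ := by exact_mod_cast hW₀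
  have h4 : H < 6 * W₀ * (L + 1) := by
    rw [hL]
    have := Nat.lt_mul_div_succ H (show 0 < 6 * W₀ by omega)
    exact this
  have h5 : (H : ℝ) ≤ 6 * W₀ * (L + 1) := by exact_mod_cast h4.le
  have h6 : (L : ℝ) + 1 ≤ k₁ * (2 * A.card + 1) := by exact_mod_cast hbig
  have h7 : (24 * (W₀ : ℝ) * k₁) ≤ H := by exact_mod_cast hH
  rw [one_div, inv_mul_le_iff₀ (by positivity)]
  have h8 : (H : ℝ) ≤ 6 * W₀ * (k₁ * (2 * A.card + 1)) :=
    h5.trans (mul_le_mul_of_nonneg_left h6 (by positivity))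
  have h9 : 6 * (W₀ : ℝ) * (k₁ * (2 * A.card + 1)) = 12 * W₀ * k₁ * A.card + 6 * W₀ * k₁ := by ring
  have h10 : 24 * (W₀ : ℝ) * k₁ * A.card = 2 * (12 * W₀ * k₁ * A.card) := by ring
  have h11 : 24 * (W₀ : ℝ) * k₁ = 4 * (6 * W₀ * k₁) := by ring
  have h12 : 0 ≤ (A.card : ℝ) := Nat.cast_nonneg _
  have h13 : 0 ≤ 12 * (W₀ : ℝ) * k₁ * A.card := by positivity
  rw [h9] at h8
  rw [h11] at h7
  linarith

end Pool.Agent.K6.H45.EA
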