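import Pool.Agent.K6.H45.EA.Mix

set_option autoImplicit false
set_option maxHeartbeats 1000000

/-! # Mixed decompositions, assembly -/

namespace Pool.Agent.K6.H45.EA

open Finset Filter
open Pool.Agent.Results.MP_3509fd_nt.NeighboursOfAlmostMissing (AlmostMissing many)
open Pool.Agent.Results.MP_ea8352_nt.AlmostAdmissible (AlmostTwin twin_of_missing density)

/-- almost twin first summand, prime pair as second summand -/
def Dec1 (r C h X n : ℕ) : Prop :=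
  ∃ k m : ℕ, 1 ≤ k ∧ 1 ≤ m ∧ k + m = n ∧
    (m : ℝ) ≤ Real.log X ^ 2 * Real.log (Real.log X) ^ C ∧
    AlmostTwin r (6 * k - 1) ∧ (pr m + h).Prime

/-- prime pair as first summand, almost twin second summand -/
def Dec2 (r C h X n : ℕ) : Prop :=
  ∃ k m : ℕ, 1 ≤ k ∧ 1 ≤ m ∧ k + m = n ∧ (m : ℝ) ≤ Real.log X ^ C ∧
    (6 * k - 1).Prime ∧ (6 * k - 1 + h).Prime ∧ AlmostTwin r (pr m)

lemma ev_l4two : ∀ᶠ X : ℕ in atTop, 1 ≤ l4 (X : ℝ) ∧ 0 < l4 ((2 * X : ℕ) : ℝ) ∧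
    l4 ((2 * X : ℕ) : ℝ) ≤ 2 * l4 (X : ℝ) := by
  have hl1 := Real.tendsto_log_atTop
  have hX : Tendsto (fun X : ℕ => (X : ℝ)) atTop atTop := tendsto_natCast_atTop_atTop
  have t1 := hl1.comp hX
  have t2 := hl1.comp t1
  have t3 := hl1.comp t2
  have t4 := hl1.comp t3
  filter_upwards [ev_l4, t1.eventually_ge_atTop 16, t2.eventually_ge_atTop 2, t3.eventually_ge_atTop 2,
    t4.eventually_ge_atTop 1, eventually_ge_atTop 2] with X h0 h1 h2 h3 h4 h5
  simp only [Function.comp_def] at h1 h2 h3 h4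
  have h5r : (2 : ℝ) ≤ X := by exact_mod_cast h5
  obtain ⟨h6, -, h8⟩ := h0
  have e0 : (X : ℝ) ≤ ((2 * X : ℕ) : ℝ) := by push_cast; linarith
  have e1 := Real.log_le_log (by linarith) e0
  have e2 := Real.log_le_log (by linarith) e1
  have e3 := Real.log_le_log (by linarith) e2
  have e4 := Real.log_le_log (by linarith) e3
  have f0 : ((2 * X : ℕ) : ℝ) ≤ ((16 * X : ℕ) : ℝ) := by push_cast; linarith
  have f1 := Real.log_le_log (by linarith) f0
  have f2 := Real.log_le_log (by linarith) f1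
  have f3 := Real.log_le_log (by linarith) f2
  have f4 := Real.log_le_log (by linarith) f3
  unfold l4 at h6 h8 ⊢
  exact ⟨h6, by linarith, by linarith⟩

open Classical in
/-- first type -/
theorem type1 : ∃ r0 : ℕ, ∀ r : ℕ, r0 ≤ r → ∃ (C : ℕ) (δ : ℝ), 0 < δ ∧ ∃ H₀ : ℕ, ∀ H : ℕ, H₀ ≤ H →
    ∃ c : ℝ, 0 < c ∧ ∀ᶠ X : ℕ in atTop, δ * H ≤
      (((Icc 1 H).filter (fun h => c * X / l4 X ^ 4 ≤
        (((Ioc X (10 * X)).filter (Dec1 (2 * r) C h X)).card : ℝ))).card : ℝ) := by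
  obtain ⟨r0, hr0, htw⟩ := twinSums
  obtain ⟨K₂, hK₂, hmside⟩ := mside
  refine ⟨r0, fun r hr => ?_⟩
  obtain ⟨B, hB⟩ : ∃ B : ℕ, B = 4 * K₂ + 2 := ⟨_, rfl⟩
  obtain ⟨c, hc, X₁, htw⟩ := htw r hr B
  have hW₀ : 1 ≤ (4 * K₂).factorial := Nat.factorial_pos _
  refine ⟨B + 2, 1 / (24 * (4 * K₂).factorial * (4 * K₂ : ℕ)), ?_, 24 * (4 * K₂).factorial * (4 * K₂),
    fun H hH => ⟨c / 16, by positivity, ?_⟩⟩
  · have : (0 : ℝ) < (4 * K₂).factorial := by exact_mod_cast hW₀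
    have : (0 : ℝ) < (4 * K₂ : ℕ) := by exact_mod_cast (by omega : 0 < 4 * K₂)
    positivity
  obtain ⟨T₀, hmside⟩ := hmside H
  have hl1 := Real.tendsto_log_atTop
  have hX : Tendsto (fun X : ℕ => (X : ℝ)) atTop atTop := tendsto_natCast_atTop_atTop
  have h16 : Tendsto (fun X : ℕ => 2 * X) atTop atTop :=
    tendsto_atTop_mono (fun X => by show X ≤ 2 * X; omega) tendsto_id
  have t1 : Tendsto (fun X : ℕ => Real.log ((2 * X : ℕ) : ℝ)) atTop atTop :=
    hl1.comp (hX.comp h16)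
  have t2 : Tendsto (fun X : ℕ => Real.log (Real.log ((2 * X : ℕ) : ℝ))) atTop atTop := hl1.comp t1
  have u2 : Tendsto (fun X : ℕ => Real.log (Real.log (X : ℝ))) atTop atTop := hl1.comp (hl1.comp hX)
  have hlp : ∀ᶠ X : ℕ in atTop, Real.log X ^ 4 ≤ X := by
    have h := ((isLittleO_log_rpow_rpow_atTop ((4 : ℕ) : ℝ) (by norm_num : (0 : ℝ) < 1)).comp_tendsto
      hX).bound (by norm_num : (0 : ℝ) < 1)
    filter_upwards [h, eventually_ge_atTop 1] with X hX hX1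
    have hX1' : (1 : ℝ) ≤ X := by exact_mod_cast hX1
    have hl := Real.log_nonneg hX1'
    simp only [Function.comp_def, Real.rpow_natCast, Real.rpow_one, one_mul] at hX
    rw [Real.norm_of_nonneg (by positivity), Real.norm_of_nonneg (by positivity)] at hX
    exact hX
  filter_upwards [eventually_ge_atTop X₁, eventually_ge_atTop 100, ev_l4two,
    t1.eventually (ev_pow (B + 1)), t1.eventually_ge_atTop ((T₀ : ℝ) + 3), t2.eventually_ge_atTop 2,
    u2.eventually_ge_atTop ((2 : ℝ) ^ (B + 3)), (hl1.comp hX).eventually_ge_atTop 8, hlp] with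
    X hX1 hX100 hl4 hlogp hLT hlL huX hlX8 hlp
  simp only [Function.comp_def] at hlX8
  obtain ⟨hl4a, hl4b, hl4c⟩ := hl4
  have hXr : (100 : ℝ) ≤ X := by exact_mod_cast hX100
  have htwX := htw X hX1
  apply prop_of_hit _ (4 * K₂) (4 * K₂).factorial (by omega) hW₀ H hH
  intro G hG hGH hGW
  -- `T`
  obtain ⟨L, hL⟩ : ∃ L : ℝ, L = Real.log ((2 * X : ℕ) : ℝ) := ⟨_, rfl⟩
  rw [← hL] at hlogp hLT hlL htwX
  have hT₀0 : (0 : ℝ) ≤ T₀ := Nat.cast_nonneg _
  have hL3 : 3 ≤ L := by linarith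
  have hL0 : 0 < L := by linarith
  obtain ⟨T, hT⟩ : ∃ T : ℕ, T = ⌊L ^ 2 * Real.log L ^ (B + 1)⌋₊ := ⟨_, rfl⟩
  have hLg : L ≤ L ^ 2 := le_self_pow₀ (by linarith) (by omega)
  have hbig : L * 2 ≤ L ^ 2 * Real.log L ^ (B + 1) := by
    apply mul_le_mul hLg _ (by norm_num) (by positivity)
    have : Real.log L ≤ Real.log L ^ (B + 1) := le_self_pow₀ (by linarith) (by omega)
    linarith
  have hTle : (T : ℝ) ≤ L ^ 2 * Real.log L ^ (B + 1) := by
    rw [hT]; exact Nat.floor_le (by positivity)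
  have hTge : L ^ 2 * Real.log L ^ (B + 1) ≤ 2 * T := by
    have := Nat.lt_floor_add_one (L ^ 2 * Real.log L ^ (B + 1))
    rw [← hT] at this
    linarith
  have hT1 : (T : ℝ) ≤ L ^ 3 := by
    calc (T : ℝ) ≤ L ^ 2 * Real.log L ^ (B + 1) := hTle
      _ ≤ L ^ 2 * L := by gcongr
      _ = L ^ 3 := by ring
  have hTT₀ : T₀ ≤ T := by
    have : (T₀ : ℝ) ≤ T := by linarith
    exact_mod_cast this
  have hLX : L ≤ 2 * Real.log X := by
    have h1 := Real.log_le_log (by positivity) (show ((2 * X : ℕ) : ℝ) ≤ (X : ℝ) ^ 2 by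
      push_cast; nlinarith)
    rw [Real.log_pow] at h1
    rw [hL]
    exact_mod_cast h1
  have hlogL : Real.log L ≤ 2 * Real.log (Real.log X) := log_two_le _ _ hL0 (by linarith) hLX
  have hTX : (T : ℝ) ≤ Real.log X ^ 2 * Real.log (Real.log X) ^ (B + 2) := by
    calc (T : ℝ) ≤ L ^ 2 * Real.log L ^ (B + 1) := hTle
      _ ≤ (2 * Real.log X) ^ 2 * (2 * Real.log (Real.log X)) ^ (B + 1) := by gcongr
      _ = Real.log X ^ 2 * ((2 : ℝ) ^ (B + 3) * Real.log (Real.log X) ^ (B + 1)) := by ring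
      _ ≤ Real.log X ^ 2 * (Real.log (Real.log X) * Real.log (Real.log X) ^ (B + 1)) := by
          have h0 : 0 ≤ Real.log (Real.log X) := by
            have : (0 : ℝ) < (2 : ℝ) ^ (B + 3) := by positivity
            linarith
          gcongr
      _ = _ := by ring
  have hTX2 : T ≤ X := by
    have h1 : (T : ℝ) ≤ X := by
      calc (T : ℝ) ≤ L ^ 3 := hT1
        _ ≤ (2 * Real.log X) ^ 3 := pow_le_pow_left₀ hL0.le hLX _
        _ = 8 * Real.log X ^ 3 := by ring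
        _ ≤ Real.log X * Real.log X ^ 3 := by
          apply mul_le_mul_of_nonneg_right hlX8
          positivity
        _ = Real.log X ^ 4 := by ring
        _ ≤ X := hlp
    exact_mod_cast h1
  obtain ⟨x, y, hxy, SM, hSM1, hSM2, hSM3⟩ := hmside T hTT₀ (fun x => G (finProdFinEquiv x))
    (fun x y h => finProdFinEquiv.injective (hG h)) (fun x => hGH _)
    (fun p hp hpk x => ((Nat.Prime.dvd_factorial hp).2 hpk).trans (hGW _))
  rw [← hB] at hSM3
  refine ⟨_, _, hxy, ?_⟩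
  have hmain := htwX T hT1 hTge SM hSM1 hSM3
  have hsub : (((Ioc X (2 * X + T)).filter (fun n => ∃ k m : ℕ, 1 ≤ k ∧ 1 ≤ m ∧
        k + m = n ∧ m ∈ SM ∧ AlmostTwin (2 * r) (6 * k - 1))).card : ℝ) ≤
      (((Ioc X (10 * X)).filter (Dec1 (2 * r) (B + 2)
        (6 * (G (finProdFinEquiv y) - G (finProdFinEquiv x))) X)).card : ℝ) := by
    rw [Nat.cast_le]
    apply card_le_card
    intro n hn
    rw [mem_filter, mem_Ioc] at hn ⊢
    obtain ⟨hn1, k, m, h1, h2, h3, h4, h5⟩ := hn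
    refine ⟨by omega, k, m, h1, h2, h3, ?_, h5, hSM2 m h4⟩
    have h6 : (m : ℝ) ≤ T := by exact_mod_cast (mem_Icc.1 (hSM1 h4)).2
    exact h6.trans hTX
  refine le_trans ?_ (hmain.trans hsub)
  have h1 : l4 ((2 * X : ℕ) : ℝ) ^ 4 ≤ 16 * l4 (X : ℝ) ^ 4 := by
    calc l4 ((2 * X : ℕ) : ℝ) ^ 4 ≤ (2 * l4 (X : ℝ)) ^ 4 := pow_le_pow_left₀ hl4b.le hl4c _
      _ = 16 * l4 (X : ℝ) ^ 4 := by ring
  have h2 : 0 < l4 ((2 * X : ℕ) : ℝ) ^ 4 := pow_pos hl4b _
  have h3 : 0 < l4 (X : ℝ) ^ 4 := pow_pos (by linarith) _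
  rw [div_le_div_iff₀ h3 h2]
  have hX0 : (0 : ℝ) < X := by linarith
  calc c / 16 * X * l4 ((2 * X : ℕ) : ℝ) ^ 4 ≤ c / 16 * X * (16 * l4 (X : ℝ) ^ 4) := by gcongr
    _ = c * X * l4 (X : ℝ) ^ 4 := by ring

open Classical in
/-- second type -/
theorem type2 : ∃ r0 : ℕ, ∀ r : ℕ, r0 ≤ r → ∃ (C : ℕ) (δ : ℝ), 0 < δ ∧ ∃ H₀ : ℕ, ∀ H : ℕ, H₀ ≤ H →
    ∃ c : ℝ, 0 < c ∧ ∀ᶠ X : ℕ in atTop, δ * H ≤
      (((Icc 1 H).filter (fun h => c * X / l4 X ^ C ≤
        (((Ioc X (10 * X)).filter (Dec2 (2 * r) C h X)).card : ℝ))).card : ℝ) := by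
  obtain ⟨r2, hr2, hmany⟩ := many
  obtain ⟨k₁, W₀, g, hk₁, hW₀, hg2, hks⟩ := kside 2 le_rfl
  refine ⟨max r2 1, fun r hr => ?_⟩
  have hr1 : 1 ≤ r := (le_max_right _ _).trans hr
  obtain ⟨κ, hκ, hmany⟩ := hmany r ((le_max_left _ _).trans hr)
  obtain ⟨y0, hdens⟩ := density r hr1 κ hκ hmany
  refine ⟨2 * g, 1 / (24 * W₀ * k₁), by positivity, 24 * W₀ * k₁, fun H hH => ?_⟩
  obtain ⟨c, hc, X₀, hks⟩ := hks 3 H
  refine ⟨c, hc, ?_⟩
  have hl1 := Real.tendsto_log_atTop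
  have hX : Tendsto (fun X : ℕ => (X : ℝ)) atTop atTop := tendsto_natCast_atTop_atTop
  have h16 : Tendsto (fun X : ℕ => 16 * X) atTop atTop :=
    tendsto_atTop_mono (fun X => by show X ≤ 16 * X; omega) tendsto_id
  have t1 : Tendsto (fun X : ℕ => Real.log ((16 * X : ℕ) : ℝ)) atTop atTop :=
    hl1.comp (hX.comp h16)
  have t2 : Tendsto (fun X : ℕ => Real.log (Real.log ((16 * X : ℕ) : ℝ))) atTop atTop := hl1.comp t1
  filter_upwards [eventually_ge_atTop X₀, eventually_ge_atTop 100,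
    t1.eventually (ev_pow 5), t1.eventually_ge_atTop ((y0 : ℝ) + 3),
    t2.eventually_ge_atTop ((2 : ℝ) ^ (g + 1) + 2)] with X hXX hX100 hlogp hLy hlL
  have hXr : (100 : ℝ) ≤ X := by exact_mod_cast hX100
  apply prop_of_hit _ k₁ W₀ hk₁ hW₀ H hH
  intro G hG hGH hGW
  obtain ⟨f, hf, hks⟩ := hks X hXX G hG hGH hGW
  obtain ⟨L, hL⟩ : ∃ L : ℝ, L = Real.log ((16 * X : ℕ) : ℝ) := ⟨_, rfl⟩
  rw [← hL] at hlogp hLy hlL hks
  have hy00 : (0 : ℝ) ≤ y0 := Nat.cast_nonneg _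
  have hp2 : (0 : ℝ) < (2 : ℝ) ^ (g + 1) := by positivity
  have hL3 : 3 ≤ L := by linarith
  have hL0 : 0 < L := by linarith
  have hlogL2 : 2 ≤ Real.log L := by linarith
  obtain ⟨T, hT⟩ : ∃ T : ℕ, T = ⌊L ^ g * Real.log L ^ (3 + 1)⌋₊ := ⟨_, rfl⟩
  have hLg : L ≤ L ^ g := le_self_pow₀ (by linarith) (by omega)
  have hbig : L * 2 ≤ L ^ g * Real.log L ^ (3 + 1) := by
    apply mul_le_mul hLg _ (by norm_num) (by positivity)
    have : Real.log L ≤ Real.log L ^ (3 + 1) := le_self_pow₀ (by linarith) (by omega)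
    linarith
  have hTle : (T : ℝ) ≤ L ^ g * Real.log L ^ (3 + 1) := by
    rw [hT]; exact Nat.floor_le (by positivity)
  have hTge : L ^ g * Real.log L ^ (3 + 1) ≤ 2 * T := by
    have := Nat.lt_floor_add_one (L ^ g * Real.log L ^ (3 + 1))
    rw [← hT] at this
    linarith
  have hTy0 : y0 ≤ T := by
    have : (y0 : ℝ) ≤ T := by linarith
    exact_mod_cast this
  have hlX0 : 0 < Real.log X := Real.log_pos (by linarith)
  have hLX : L ≤ 2 * Real.log X := by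
    have h1 := Real.log_le_log (by positivity) (show ((16 * X : ℕ) : ℝ) ≤ (X : ℝ) ^ 2 by
      push_cast; nlinarith)
    rw [Real.log_pow] at h1
    rw [hL]
    exact_mod_cast h1
  have hTX : (T : ℝ) ≤ Real.log X ^ (g + 1) := by
    have h1 : Real.log L ^ 4 * 2 ^ (g + 1) ≤ L := by
      calc Real.log L ^ 4 * 2 ^ (g + 1) ≤ Real.log L ^ 4 * Real.log L := by
            apply mul_le_mul_of_nonneg_left _ (by positivity)
            linarith
        _ = Real.log L ^ 5 := by ring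
        _ ≤ L := hlogp
    have h2 : Real.log L ^ 4 * 2 ^ g ≤ Real.log X := by
      have h3 : Real.log L ^ 4 * 2 ^ (g + 1) = 2 * (Real.log L ^ 4 * 2 ^ g) := by ring
      rw [h3] at h1
      linarith
    calc (T : ℝ) ≤ L ^ g * Real.log L ^ (3 + 1) := hTle
      _ ≤ (2 * Real.log X) ^ g * Real.log L ^ (3 + 1) := by gcongr
      _ = Real.log X ^ g * (Real.log L ^ 4 * 2 ^ g) := by rw [mul_pow]; ring
      _ ≤ Real.log X ^ g * Real.log X := by gcongr
      _ = Real.log X ^ (g + 1) := by ring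
  obtain ⟨S, hS1, hS2, hS3⟩ := hdens T hTy0
  have hne : G (f 0) ≠ G (f 1) := by
    intro h
    have := hf (hG h)
    exact absurd this (by decide)
  have key : ∀ a b : Fin 2, G (f a) < G (f b) → c * X / l4 X ^ (2 * g) ≤
      (((Ioc X (10 * X)).filter (Dec2 (2 * r) (2 * g) (6 * (G (f b) - G (f a))) X)).card : ℝ) := by
    intro a b hab
    refine (hks T hTX hTge S hS1 hS3 a).trans ?_
    rw [Nat.cast_le]
    apply card_le_card
    intro n hn
    rw [mem_filter] at hn ⊢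
    obtain ⟨hn1, k, m, h1, h2, h3, h4, h5⟩ := hn
    refine ⟨hn1, k, m, h1, h2, h3, ?_, ?_, ?_, hS2 m h4⟩
    · have h6 : (m : ℝ) ≤ T := by exact_mod_cast (mem_Icc.1 (hS1 h4)).2
      refine h6.trans (hTX.trans (pow_le_pow_right₀ ?_ (by omega)))
      linarith
    · have h6 := h5 _ (mem_image_of_mem _ (mem_univ a))
      have h7 : (6 * ((k : ℤ) + ((G (f a) : ℤ) - G (f a))) - 1).toNat = 6 * k - 1 := by omega
      rw [h7] at h6
      exact h6
    · have h6 := h5 _ (mem_image_of_mem _ (mem_univ b))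
      have h7 : (6 * ((k : ℤ) + ((G (f b) : ℤ) - G (f a))) - 1).toNat =
          6 * k - 1 + 6 * (G (f b) - G (f a)) := by omega
      rw [h7] at h6
      exact h6
  rcases lt_or_gt_of_ne hne with h | h
  · exact ⟨_, _, h, key 0 1 h⟩
  · exact ⟨_, _, h, key 1 0 h⟩

end Pool.Agent.K6.H45.EA
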