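import Pool.Agent.K6.H45.EA.Av
import Pool.Agent.TH685.TI.Cs

set_option autoImplicit false
set_option maxHeartbeats 1000000

/-! # Many sums of an element of a dense set of rough integers and an element of a fairly dense set -/

namespace Pool.Agent.K6.H45.EA

open Finset Filter Pool.Agent.H373R2.T7 Pool.Agent.W123.RP
open Pool.Agent.TH685.TI (cs)

variable {ι : Type} [Fintype ι]

lemma ev_pow (B : ℕ) : ∀ᶠ L : ℝ in atTop, Real.log L ^ B ≤ L := by
  have h1 := (Real.isLittleO_pow_log_id_atTop (n := B)).bound (by norm_num : (0 : ℝ) < 1)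
  filter_upwards [h1, eventually_ge_atTop 1] with L h hL
  have hl : 0 ≤ Real.log L := Real.log_nonneg hL
  rw [Real.norm_of_nonneg (by positivity)] at h
  simp only [id] at h
  rw [Real.norm_of_nonneg (by linarith), one_mul] at h
  exact h

/-- the fourth iterated logarithm -/
noncomputable def l4 (X : ℝ) : ℝ := Real.log (Real.log (Real.log (Real.log X)))

open Classical in
/-- **Many sums.** -/
theorem many_sums (F : ι → ℤ × ℤ) (hF : Good F) [Nonempty ι] (δ : ℝ) (hδ : 0 < δ) (κ : ℝ) (hκ : 0 < κ)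
    (B : ℕ) : ∃ c : ℝ, 0 < c ∧ ∃ N₀ : ℕ, ∀ N : ℕ, N₀ ≤ N → ∀ K : Finset ℕ, K ⊆ Icc 1 N →
    (∀ n ∈ K, Rf F δ N n) → κ * N / Real.log N ^ Fintype.card ι ≤ #K →
    ∀ T : ℕ, (T : ℝ) ≤ Real.log N ^ (Fintype.card ι + 1) →
      Real.log N ^ Fintype.card ι * Real.log (Real.log N) ^ (B + 1) ≤ 2 * T →
    ∀ S : Finset ℕ, S ⊆ Icc 1 T → (T : ℝ) ≤ #S * Real.log T ^ B →
    c * N / l4 N ^ (2 * Fintype.card ι) ≤ #((S ×ˢ K).image (fun z => z.1 + z.2)) := by
  obtain ⟨g, hg⟩ : ∃ g : ℕ, g = Fintype.card ι := ⟨_, rfl⟩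
  have hg1 : 1 ≤ g := by rw [hg]; exact Fintype.card_pos
  obtain ⟨J, hJ⟩ : ∃ J : ℕ, J = Fintype.card (ι × ι) := ⟨_, rfl⟩
  obtain ⟨C, hC, N₁, hpair⟩ := pairF F hF δ hδ
  rw [← hg] at hpair ⊢
  obtain ⟨CF, hCF⟩ : ∃ CF : ℝ, CF = 32 * (J : ℝ) * (bd F ^ 2 + bd F) := ⟨_, rfl⟩
  have hCF0 : 0 ≤ CF := by rw [hCF]; positivity
  obtain ⟨E, hE⟩ : ∃ E : ℝ, E = Real.exp (B + CF) := ⟨_, rfl⟩
  have hE0 : 0 < E := by rw [hE]; exact Real.exp_pos _
  obtain ⟨D, hD⟩ : ∃ D : ℝ, D = (1 + 2 * J) / κ + C * 2 ^ (2 * g) * E / κ ^ 2 := ⟨_, rfl⟩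
  have hD0 : 0 < D := by
    rw [hD]
    have : (0 : ℝ) ≤ J := Nat.cast_nonneg _
    positivity
  refine ⟨1 / D, by positivity, ?_⟩
  have hlogt : Tendsto (fun x : ℕ => Real.log (x : ℝ)) atTop atTop :=
    Real.tendsto_log_atTop.comp tendsto_natCast_atTop_atTop
  have hl1 := Real.tendsto_log_atTop
  have hloglog : Tendsto (fun L : ℝ => Real.log (Real.log L)) atTop atTop := hl1.comp hl1
  have hlogloglog : Tendsto (fun L : ℝ => Real.log (Real.log (Real.log L))) atTop atTop :=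
    hl1.comp hloglog
  obtain ⟨C3, hC3⟩ : ∃ C3 : ℝ, C3 = J * (2 * g) * (g + 6) + 3 := ⟨_, rfl⟩
  have ev : ∀ᶠ L : ℝ in atTop, 1 ≤ L ∧ 2 * ((g : ℝ) + 1) ^ B ≤ Real.log L ∧
      C3 ≤ Real.log (Real.log L) ∧ 3 ≤ Real.log (Real.log L) ∧
      1 ≤ Real.log (Real.log (Real.log L)) := by
    filter_upwards [eventually_ge_atTop 1, hl1.eventually_ge_atTop (2 * ((g : ℝ) + 1) ^ B),
      hloglog.eventually_ge_atTop C3, hloglog.eventually_ge_atTop 3,
      hlogloglog.eventually_ge_atTop 1] with L h1 h2 h3 h4 h5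
    exact ⟨h1, h2, h3, h4, h5⟩
  obtain ⟨N₀, hN₀⟩ := eventually_atTop.mp ((hlogt.eventually ev).and
    ((eventually_ge_atTop N₁).and (eventually_ge_atTop 10)))
  refine ⟨N₀, fun N hN K hKN hKr hK T hT1 hT2 S hST hSc => ?_⟩
  obtain ⟨⟨f0, f1, f2, f3, f4⟩, hN1, hN10⟩ := hN₀ N hN
  have hNr : (10 : ℝ) ≤ N := by exact_mod_cast hN10
  have hNpos : (0 : ℝ) < N := by linarith
  have hpairN := hpair N hN1
  unfold l4
  obtain ⟨L, hL⟩ : ∃ L : ℝ, L = Real.log (N : ℝ) := ⟨_, rfl⟩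
  rw [← hL] at f0 f1 f2 f3 f4 hK hpairN hT1 hT2 ⊢
  have hlogL3 : 3 ≤ Real.log L := by
    have h1 : (1 : ℝ) ≤ ((g : ℝ) + 1) ^ B := one_le_pow₀ (by
      have : (0 : ℝ) ≤ g := Nat.cast_nonneg _
      linarith)
    by_contra hcon
    push Not at hcon
    have h2 : Real.log (Real.log L) ≤ Real.log L - 1 := Real.log_le_sub_one_of_pos (by linarith)
    linarith
  have hL0 : 0 < L := by linarith
  have hlog0 : 0 < Real.log L := by linarith
  have hLg : 0 < L ^ g := by positivity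
  -- `T`
  have hlB : (1 : ℝ) ≤ Real.log L ^ (B + 1) := one_le_pow₀ (by linarith)
  have hL3 : 3 ≤ L := by
    have h2 : Real.log L ≤ L - 1 := Real.log_le_sub_one_of_pos hL0
    linarith
  have hTL : L ≤ T := by
    have h1 : L ^ g * Real.log L ≤ L ^ g * Real.log L ^ (B + 1) := by
      apply mul_le_mul_of_nonneg_left _ hLg.le
      exact le_self_pow₀ (by linarith) (by omega)
    have h2 : L ≤ L ^ g := le_self_pow₀ f0 (by omega)
    have h3 : L * 2 ≤ L ^ g * Real.log L := mul_le_mul h2 (by linarith) (by norm_num) hLg.le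
    linarith
  have hT0 : (0 : ℝ) < T := by linarith
  have hTge1 : 1 ≤ T := by
    have : (0 : ℝ) < T := hT0
    exact_mod_cast this
  have hlogT : Real.log T ≤ (g + 1) * Real.log L := by
    have := Real.log_le_log hT0 hT1
    rw [Real.log_pow] at this
    exact_mod_cast this
  have hlogT1 : Real.log L ≤ Real.log T := Real.log_le_log hL0 hTL
  have hlogT0 : 0 < Real.log T := by linarith
  have hgr : (1 : ℝ) ≤ g := by exact_mod_cast hg1
  have hSL : L ^ g ≤ #S := by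
    have h1 : Real.log T ^ B ≤ ((g : ℝ) + 1) ^ B * Real.log L ^ B := by
      rw [← mul_pow]
      exact pow_le_pow_left₀ hlogT0.le hlogT B
    have h2 : L ^ g * Real.log L ^ (B + 1) / 2 ≤ #S * (((g : ℝ) + 1) ^ B * Real.log L ^ B) := by
      have h3 : (T : ℝ) ≤ #S * (((g : ℝ) + 1) ^ B * Real.log L ^ B) :=
        hSc.trans (mul_le_mul_of_nonneg_left h1 (Nat.cast_nonneg _))
      linarith
    have hlB : 0 < Real.log L ^ B := by positivity
    have h3 : L ^ g * (Real.log L / 2) ≤ #S * ((g : ℝ) + 1) ^ B := by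
      have h4 : L ^ g * (Real.log L / 2) * Real.log L ^ B ≤ #S * ((g : ℝ) + 1) ^ B * Real.log L ^ B := by
        calc L ^ g * (Real.log L / 2) * Real.log L ^ B = L ^ g * Real.log L ^ (B + 1) / 2 := by ring
          _ ≤ _ := h2
          _ = _ := by ring
      exact le_of_mul_le_mul_right h4 hlB
    have h5 : L ^ g * ((g : ℝ) + 1) ^ B ≤ L ^ g * (Real.log L / 2) :=
      mul_le_mul_of_nonneg_left (by linarith) (by positivity)
    exact le_of_mul_le_mul_right (h5.trans h3) (by positivity)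
  have hS0 : (0 : ℝ) < #S := lt_of_lt_of_le hLg hSL
  -- the exponent
  have hllT : Real.log (Real.log T) ≤ g + Real.log (Real.log L) := by
    have h1 : Real.log (Real.log T) ≤ Real.log ((g + 1) * Real.log L) := Real.log_le_log hlogT0 hlogT
    rw [Real.log_mul (by positivity) (by linarith)] at h1
    have h2 : Real.log ((g : ℝ) + 1) ≤ g := by
      have := Real.log_le_sub_one_of_pos (by linarith : (0 : ℝ) < (g : ℝ) + 1)
      linarith
    linarith
  have hllT0 : 0 ≤ Real.log (Real.log T) := by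
    have : Real.log (Real.log L) ≤ Real.log (Real.log T) := Real.log_le_log (by linarith) hlogT1
    linarith
  obtain ⟨q, hq⟩ : ∃ q : ℕ, q = ⌈Real.log (Real.log T)⌉₊ + 1 := ⟨_, rfl⟩
  have hq1 : 1 ≤ q := by omega
  have hqge : Real.log (Real.log T) ≤ q := by
    have := Nat.le_ceil (Real.log (Real.log T))
    rw [hq]
    push_cast
    linarith
  have hqle : (q : ℝ) ≤ Real.log (Real.log L) + (g + 2) := by
    have := Nat.ceil_lt_add_one hllT0
    rw [hq]
    push_cast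
    linarith
  have hq1r : (1 : ℝ) ≤ q := by exact_mod_cast hq1
  obtain ⟨w, hw⟩ : ∃ w : ℕ, w = J * (2 * g * q) + 3 := ⟨_, rfl⟩
  have hw3 : 3 ≤ w := by omega
  have hlogw : Real.log w ≤ 2 * Real.log (Real.log (Real.log L)) := by
    obtain ⟨ll, hll⟩ : ∃ ll : ℝ, ll = Real.log (Real.log L) := ⟨_, rfl⟩
    rw [← hll] at f2 f3 hqle ⊢
    have hJ0 : (0 : ℝ) ≤ J := Nat.cast_nonneg _
    have h1 : (w : ℝ) ≤ ll ^ 2 := by
      rw [hw]
      push_cast
      have h2 : (q : ℝ) ≤ (g + 6) * ll := by nlinarith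
      calc (J : ℝ) * (2 * g * q) + 3 ≤ J * (2 * g * ((g + 6) * ll)) + 3 * ll := by
            have h3 : (J : ℝ) * (2 * g * q) ≤ J * (2 * g * ((g + 6) * ll)) := by gcongr
            linarith
        _ = C3 * ll := by rw [hC3]; ring
        _ ≤ ll * ll := mul_le_mul_of_nonneg_right f2 (by linarith)
        _ = ll ^ 2 := by ring
    have hw0 : (0 : ℝ) < w := by exact_mod_cast (by omega : 0 < w)
    have h2 : Real.log w ≤ Real.log (ll ^ 2) := Real.log_le_log hw0 h1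
    rw [Real.log_pow] at h2
    exact_mod_cast h2
  have hlogw0 : 0 ≤ Real.log w := Real.log_nonneg (by exact_mod_cast (by omega : 1 ≤ w))
  have hEq : CF * (T : ℝ) ≤ E ^ q * #S := by
    have h1 : Real.log T ^ B ≤ Real.exp (B * q) := by
      calc Real.log T ^ B = Real.exp (B * Real.log (Real.log T)) := by
            rw [Real.exp_nat_mul, Real.exp_log hlogT0]
        _ ≤ Real.exp (B * q) := by
            apply Real.exp_le_exp.mpr
            gcongr
    have h2 : CF ≤ Real.exp (CF * q) := by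
      have h3 : CF + 1 ≤ Real.exp CF := Real.add_one_le_exp CF
      have h4 : Real.exp CF ≤ Real.exp (CF * q) := Real.exp_le_exp.2 (le_mul_of_one_le_right hCF0 hq1r)
      linarith
    have h3 : E ^ q = Real.exp (CF * q) * Real.exp (B * q) := by
      rw [hE, ← Real.exp_nat_mul, ← Real.exp_add]
      congr 1
      ring
    calc CF * (T : ℝ) ≤ CF * (#S * Real.log T ^ B) := by gcongr
      _ = CF * Real.log T ^ B * #S := by ring
      _ ≤ Real.exp (CF * q) * Real.exp (B * q) * #S := by gcongr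
      _ = E ^ q * #S := by rw [h3]
  rw [hCF, hJ] at hEq
  have havg := avgJ F hF w q T g S E hg1 hq1 (by rw [← hJ]; omega) hST hE0.le hEq
  have hbad := few_bad F hF T S hST
  rw [← hJ] at hbad
  -- the count
  have hcs := cs K S
  obtain ⟨I, hI⟩ : ∃ I : Finset ℕ, I = (S ×ˢ K).image (fun z => z.1 + z.2) := ⟨_, rfl⟩
  rw [← hI] at hcs ⊢
  obtain ⟨l, hl⟩ : ∃ l : ℝ, l = Real.log (Real.log (Real.log L)) := ⟨_, rfl⟩
  rw [← hl] at f4 hlogw ⊢
  obtain ⟨P, hP⟩ : ∃ P : ℝ, P = C * (N / L ^ (2 * g)) * (2 * l) ^ (2 * g) := ⟨_, rfl⟩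
  have hP0 : 0 ≤ P := by rw [hP]; positivity
  have hsum : ∑ z ∈ S.offDiag, (#(K.filter (fun k => k + Nat.dist z.1 z.2 ∈ K)) : ℝ) ≤
      P * (E * (#S : ℝ) ^ 2) + #K * (2 * #S * J) := by
    have h1 : ∀ z ∈ S.offDiag, (#(K.filter (fun k => k + Nat.dist z.1 z.2 ∈ K)) : ℝ) ≤
        P * (if ∀ u : ι × ι, lf F u.1 u.2 (Nat.dist z.1 z.2) ≠ 0 then
          gJ w F (Nat.dist z.1 z.2) ^ (2 * g) else 0) +
        #K * (if ∀ u : ι × ι, lf F u.1 u.2 (Nat.dist z.1 z.2) ≠ 0 then (0 : ℝ) else 1) := by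
      intro z hz
      split_ifs with hc
      · rw [mul_zero, add_zero]
        have h2 := hpairN w (Nat.dist z.1 z.2) hw3 hc
        have h3 : #(K.filter (fun k => k + Nat.dist z.1 z.2 ∈ K)) ≤ ((Icc 1 N).filter
            (fun n => Rf F δ N n ∧ Rf F δ N (n + Nat.dist z.1 z.2))).card := by
          apply card_le_card
          intro k hk
          rw [mem_filter] at hk ⊢
          exact ⟨hKN hk.1, hKr k hk.1, hKr _ hk.2⟩
        have h4 : (#(K.filter (fun k => k + Nat.dist z.1 z.2 ∈ K)) : ℝ) ≤ (((Icc 1 N).filter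
            (fun n => Rf F δ N n ∧ Rf F δ N (n + Nat.dist z.1 z.2))).card : ℝ) := by exact_mod_cast h3
        refine h4.trans (h2.trans ?_)
        rw [mul_pow, hP]
        have h5 := one_le_gJ w F (Nat.dist z.1 z.2)
        have h6 : Real.log w ^ (2 * g) ≤ (2 * l) ^ (2 * g) := pow_le_pow_left₀ hlogw0 hlogw _
        calc C * (N / L ^ (2 * g)) * (Real.log w ^ (2 * g) * gJ w F (Nat.dist z.1 z.2) ^ (2 * g)) ≤
              C * (N / L ^ (2 * g)) * ((2 * l) ^ (2 * g) * gJ w F (Nat.dist z.1 z.2) ^ (2 * g)) := by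
              gcongr
          _ = _ := by ring
      · rw [mul_zero, zero_add, mul_one]
        exact_mod_cast card_filter_le _ _
    refine (Finset.sum_le_sum h1).trans ?_
    rw [Finset.sum_add_distrib, ← Finset.mul_sum, ← Finset.mul_sum]
    apply add_le_add
    · exact mul_le_mul_of_nonneg_left havg hP0
    · exact mul_le_mul_of_nonneg_left hbad (Nat.cast_nonneg _)
  obtain ⟨t, ht⟩ : ∃ t : ℝ, t = (#S : ℝ) * #K := ⟨_, rfl⟩
  rw [← ht] at hcs
  have ht1 : (#S : ℝ) * (κ * N / L ^ g) ≤ t := by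
    rw [ht]
    exact mul_le_mul_of_nonneg_left hK hS0.le
  have ht2 : κ * N ≤ t := by
    refine le_trans ?_ ht1
    calc κ * N = L ^ g * (κ * N / L ^ g) := by field_simp
      _ ≤ _ := by
        apply mul_le_mul_of_nonneg_right hSL
        positivity
  have htpos : 0 < t := lt_of_lt_of_le (by positivity) ht2
  have ht3 : t ≤ t ^ 2 / N * (1 / κ) := by
    rw [div_mul_div_comm, mul_one, le_div_iff₀ (by positivity)]
    calc t * (N * κ) = t * (κ * N) := by ring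
      _ ≤ t * t := mul_le_mul_of_nonneg_left ht2 htpos.le
      _ = t ^ 2 := by ring
  have ht4 : P * (E * (#S : ℝ) ^ 2) ≤ t ^ 2 / N * (l ^ (2 * g) * (C * 2 ^ (2 * g) * E / κ ^ 2)) := by
    have h1 : ((#S : ℝ) * (κ * N / L ^ g)) ^ 2 ≤ t ^ 2 := pow_le_pow_left₀ (by positivity) ht1 2
    have h2 : P * (E * (#S : ℝ) ^ 2) =
        ((#S : ℝ) * (κ * N / L ^ g)) ^ 2 / N * (l ^ (2 * g) * (C * 2 ^ (2 * g) * E / κ ^ 2)) := by
      rw [hP, mul_pow 2 l, show L ^ (2 * g) = (L ^ g) ^ 2 by rw [← pow_mul, mul_comm]]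
      field_simp
    rw [h2]
    gcongr
  have hl1 : 1 ≤ l ^ (2 * g) := one_le_pow₀ f4
  have hfin : (N : ℝ) ≤ #I * (D * l ^ (2 * g)) := by
    have h1 : t ^ 2 ≤ #I * (t ^ 2 / N * (D * l ^ (2 * g))) := by
      refine hcs.trans ?_
      apply mul_le_mul_of_nonneg_left _ (Nat.cast_nonneg _)
      have hJ0 : (0 : ℝ) ≤ J := Nat.cast_nonneg _
      have e1 : t + #K * (2 * #S * J) = (1 + 2 * J) * t := by rw [ht]; ring
      have h2 : (1 + 2 * J) * t ≤ t ^ 2 / N * (l ^ (2 * g) * ((1 + 2 * J) / κ)) := by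
        calc (1 + 2 * J) * t ≤ (1 + 2 * J) * (t ^ 2 / N * (1 / κ)) := by gcongr
          _ = t ^ 2 / N * (1 * ((1 + 2 * J) / κ)) := by ring
          _ ≤ _ := by gcongr
      calc t + ∑ z ∈ S.offDiag, (#(K.filter (fun k => k + Nat.dist z.1 z.2 ∈ K)) : ℝ)
          ≤ (1 + 2 * J) * t + P * (E * (#S : ℝ) ^ 2) := by linarith
        _ ≤ t ^ 2 / N * (l ^ (2 * g) * ((1 + 2 * J) / κ)) +
            t ^ 2 / N * (l ^ (2 * g) * (C * 2 ^ (2 * g) * E / κ ^ 2)) := add_le_add h2 ht4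
        _ = t ^ 2 / N * (D * l ^ (2 * g)) := by rw [hD]; ring
    have h3 : t ^ 2 * N ≤ t ^ 2 * (#I * (D * l ^ (2 * g))) := by
      calc t ^ 2 * N ≤ (#I * (t ^ 2 / N * (D * l ^ (2 * g)))) * N := by gcongr
        _ = t ^ 2 * (#I * (D * l ^ (2 * g))) := by field_simp
    exact le_of_mul_le_mul_left h3 (by positivity)
  rw [div_le_iff₀ (by positivity), one_div, inv_mul_le_iff₀ hD0]
  calc (N : ℝ) ≤ #I * (D * l ^ (2 * g)) := hfin
    _ = D * (#I * l ^ (2 * g)) := by ring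

end Pool.Agent.K6.H45.EA
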