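import Pool.Agent.K6.H45.EA.Lin
import Pool.Agent.TH685.TI.Pb
import Pool.Agent.W123.RU.Util

set_option autoImplicit false
set_option maxHeartbeats 1000000

/-! # Pairs of integers at which all forms are rough -/

namespace Pool.Agent.K6.H45.EA

open Finset Filter Pool.Agent.H373R2.T7 Pool.Agent.W123.RP
open Pool.Agent.TH685.TI (gw one_le_gw one_le_pp prod_union_le prod_sub_le small_le)

variable {ι : Type} [Fintype ι]

/-- the factor coming from the primes above `w` -/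
noncomputable def gJ (w : ℕ) (F : ι → ℤ × ℤ) (h : ℕ) : ℝ := ∏ z : ι × ι, gw w (lf F z.1 z.2 h).natAbs

lemma one_le_prod_gw {α : Type} (s : Finset α) (f : α → ℝ) (hf : ∀ x, 1 ≤ f x) : 1 ≤ ∏ x ∈ s, f x := by
  classical
  induction s using Finset.induction_on with
  | empty => simp
  | insert a s ha ih =>
    rw [Finset.prod_insert ha]
    nlinarith [hf a]

lemma one_le_gJ (w : ℕ) (F : ι → ℤ × ℤ) (h : ℕ) : 1 ≤ gJ w F h :=
  one_le_prod_gw _ _ fun _ => one_le_gw _ _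

lemma prod_biUnion_le {α : Type} (s : Finset α) (t : α → Finset ℕ) :
    ∏ p ∈ s.biUnion t, (1 + 1 / (p : ℝ)) ≤ ∏ z ∈ s, ∏ p ∈ t z, (1 + 1 / (p : ℝ)) := by
  classical
  induction s using Finset.induction_on with
  | empty => simp
  | insert a s ha ih =>
    rw [Finset.biUnion_insert, Finset.prod_insert ha]
    refine (prod_union_le _ _).trans ?_
    apply mul_le_mul_of_nonneg_left ih
    positivity

open Classical in
/-- the product over the pairs -/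
theorem prodF (F : ι → ℤ × ℤ) (hF : Good F) : ∃ C : ℝ, 1 ≤ C ∧ ∀ w y h : ℕ, 3 ≤ w →
    (∀ z : ι × ι, lf F z.1 z.2 h ≠ 0) →
    ∏ p ∈ pz y, (1 - (nuB (Qh (QF F) h) p : ℝ) / p) ≤
      C * (Vq (QF F) y ^ 2 * (Real.log w * gJ w F h) ^ (2 * Fintype.card ι)) := by
  obtain ⟨C, hC, hsmall⟩ := small_le
  obtain ⟨C0, hC0⟩ : ∃ C0 : ℝ, C0 = ∏ p ∈ pz (bd F), (p : ℝ) ^ 2 := ⟨_, rfl⟩
  have hC01 : 1 ≤ C0 := by
    rw [hC0]
    have : ∀ s : Finset ℕ, (∀ p ∈ s, 1 ≤ p) → (1 : ℝ) ≤ ∏ p ∈ s, (p : ℝ) ^ 2 := by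
      intro s hs
      induction s using Finset.induction_on with
      | empty => simp
      | insert a s ha ih =>
        rw [Finset.prod_insert ha]
        have h2 : (1 : ℝ) ≤ (a : ℝ) ^ 2 := by
          have : (1 : ℝ) ≤ a := by exact_mod_cast hs a (mem_insert_self _ _)
          exact one_le_pow₀ this
        have h3 := ih (fun p hp => hs p (mem_insert_of_mem hp))
        nlinarith
    exact this _ (fun p hp => (mem_pz.1 hp).2.one_lt.le)
  have hCp : 1 ≤ C ^ (2 * Fintype.card ι) := one_le_pow₀ hC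
  refine ⟨C0 * C ^ (2 * Fintype.card ι), by nlinarith, fun w y h hw hne => ?_⟩
  obtain ⟨A, hA⟩ : ∃ A : Finset ℕ, A = (pz y).filter (fun p : ℕ => bd F < p ∧ (p : ℤ) ∣ RF F h) :=
    ⟨_, rfl⟩
  have h1 := prod_pair_le (QF F) (RF F) _ _ _ (sdataF F hF) h y
  rw [← hA, ← hC0] at h1
  have h2 : ∏ p ∈ A, (1 + ((2 * Fintype.card ι : ℕ) : ℝ) / p) ≤
      (∏ p ∈ A, (1 + 1 / (p : ℝ))) ^ (2 * Fintype.card ι) := by
    rw [← Finset.prod_pow]
    apply Finset.prod_le_prod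
    · intro p _; positivity
    · intro p _
      have h3 := one_add_mul_le_pow (a := 1 / (p : ℝ)) (by
        have : (0 : ℝ) ≤ 1 / (p : ℝ) := by positivity
        linarith) (2 * Fintype.card ι)
      rw [mul_one_div] at h3
      exact h3
  have h5 : ∏ p ∈ A, (1 + 1 / (p : ℝ)) ≤ C * (Real.log w * gJ w F h) := by
    have hsplit : A = A.filter (fun p => p ≤ w) ∪ A.filter (fun p => ¬ p ≤ w) :=
      (Finset.filter_union_filter_not_eq _ _).symm
    have e1 : ∏ p ∈ A, (1 + 1 / (p : ℝ)) ≤ (∏ p ∈ A.filter (fun p => p ≤ w), (1 + 1 / (p : ℝ))) *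
        ∏ p ∈ A.filter (fun p => ¬ p ≤ w), (1 + 1 / (p : ℝ)) := by
      conv_lhs => rw [hsplit]
      exact prod_union_le _ _
    have e2 : ∏ p ∈ A.filter (fun p => p ≤ w), (1 + 1 / (p : ℝ)) ≤ C * Real.log w := by
      refine le_trans (prod_sub_le _ ((Icc 1 w).filter Nat.Prime) ?_) (hsmall w hw)
      intro p hp
      rw [mem_filter, hA, mem_filter, mem_pz] at hp
      rw [mem_filter, mem_Icc]
      exact ⟨⟨hp.1.1.2.one_lt.le, hp.2⟩, hp.1.1.2⟩
    have e3 : ∏ p ∈ A.filter (fun p => ¬ p ≤ w), (1 + 1 / (p : ℝ)) ≤ gJ w F h := by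
      have e4 : A.filter (fun p => ¬ p ≤ w) ⊆ (univ : Finset (ι × ι)).biUnion
          (fun z => (lf F z.1 z.2 h).natAbs.primeFactors.filter (fun p => w < p)) := by
        intro p hp
        rw [mem_filter, hA, mem_filter, mem_pz] at hp
        obtain ⟨⟨⟨hpy, hpp⟩, h4p, hR⟩, hpw⟩ := hp
        have hpi : Prime (p : ℤ) := Nat.prime_iff_prime_int.1 hpp
        unfold RF at hR
        rw [hpi.dvd_finsetProd_iff] at hR
        obtain ⟨z, hz, hd⟩ := hR
        rw [mem_biUnion]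
        refine ⟨z, hz, ?_⟩
        rw [mem_filter, Nat.mem_primeFactors]
        exact ⟨⟨hpp, Int.natCast_dvd.1 hd, Int.natAbs_ne_zero.2 (hne z)⟩, not_le.1 hpw⟩
      refine (prod_sub_le _ _ e4).trans (prod_biUnion_le _ _)
    refine e1.trans ?_
    rw [← mul_assoc]
    apply mul_le_mul e2 e3
    · positivity
    · have : (1 : ℝ) ≤ w := by exact_mod_cast (by omega : 1 ≤ w)
      have := Real.log_nonneg this
      positivity
  have h6 : (∏ p ∈ A, (1 + 1 / (p : ℝ))) ^ (2 * Fintype.card ι) ≤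
      C ^ (2 * Fintype.card ι) * (Real.log w * gJ w F h) ^ (2 * Fintype.card ι) := by
    rw [← mul_pow]
    exact pow_le_pow_left₀ (by positivity) h5 _
  refine h1.trans ?_
  have hV : 0 ≤ C0 * Vq (QF F) y ^ 2 := by positivity
  calc C0 * Vq (QF F) y ^ 2 * ∏ p ∈ A, (1 + ((2 * Fintype.card ι : ℕ) : ℝ) / p) ≤
        C0 * Vq (QF F) y ^ 2 *
          (C ^ (2 * Fintype.card ι) * (Real.log w * gJ w F h) ^ (2 * Fintype.card ι)) :=
        mul_le_mul_of_nonneg_left (h2.trans h6) hV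
    _ = _ := by ring

/-- all forms are free of primes `≤ N ^ δ` -/
def Rf (F : ι → ℤ × ℤ) (δ : ℝ) (N n : ℕ) : Prop :=
  ∀ i, ∀ p : ℕ, p.Prime → Real.log p ≤ δ * Real.log N → ¬ (p : ℤ) ∣ (F i).1 * n + (F i).2

open Classical in
/-- the upper bound for pairs -/
theorem pairF (F : ι → ℤ × ℤ) (hF : Good F) [Nonempty ι] (δ : ℝ) (hδ : 0 < δ) :
    ∃ C : ℝ, 1 ≤ C ∧ ∃ N₀ : ℕ, ∀ N : ℕ, N₀ ≤ N → ∀ w h : ℕ, 3 ≤ w →
    (∀ z : ι × ι, lf F z.1 z.2 h ≠ 0) →
    (((Icc 1 N).filter (fun n => Rf F δ N n ∧ Rf F δ N (n + h))).card : ℝ) ≤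
      C * (N / Real.log N ^ (2 * Fintype.card ι)) *
        (Real.log w * gJ w F h) ^ (2 * Fintype.card ι) := by
  obtain ⟨g, hg⟩ : ∃ g : ℕ, g = Fintype.card ι := ⟨_, rfl⟩
  have hg1 : 1 ≤ g := by rw [hg]; exact Fintype.card_pos
  obtain ⟨K1, x0, hK1, hfund⟩ := sys_fund (2 * g) (by omega) 1 one_pos
  obtain ⟨C1, hC1, hprod⟩ := prodF F hF
  obtain ⟨Cv, hCv, hV⟩ := Vq_upper (QF F) g (bd F) (fun p hp h => by rw [hg]; exact nu_ge F hF p hp h)
  obtain ⟨r, hr⟩ : ∃ r : ℕ, r = max (max K1 2) ⌈1 / δ⌉₊ := ⟨_, rfl⟩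
  have hr2 : 2 ≤ r := by rw [hr]; exact (le_max_right _ _).trans (le_max_left _ _)
  have hrK : K1 ≤ r := by rw [hr]; exact (le_max_left _ _).trans (le_max_left _ _)
  have hrδ : 1 / δ ≤ r := by
    have h1 : 1 / δ ≤ (⌈1 / δ⌉₊ : ℝ) := Nat.le_ceil _
    have h2 : (⌈1 / δ⌉₊ : ℝ) ≤ r := by
      rw [hr]
      exact_mod_cast le_max_right _ _
    linarith
  have hrpos : (0 : ℝ) < r := by exact_mod_cast (by omega : 0 < r)
  have hrδ' : 1 / (r : ℝ) ≤ δ := by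
    rw [div_le_iff₀ hrpos]
    rw [div_le_iff₀ hδ] at hrδ
    linarith
  obtain ⟨C2, hC2⟩ : ∃ C2 : ℝ, C2 = Cv * (2 * r) ^ g := ⟨_, rfl⟩
  have hC2pos : 0 < C2 := by rw [hC2]; positivity
  rw [← hg] at hprod ⊢
  refine ⟨2 * C1 * C2 ^ 2 + 1, ?_, ?_⟩
  · have : 0 ≤ 2 * C1 * C2 ^ 2 := by positivity
    linarith
  have hXr : Tendsto (fun X : ℕ => (X : ℝ)) atTop atTop := tendsto_natCast_atTop_atTop
  have hlogt : Tendsto (fun X : ℕ => Real.log (X : ℝ)) atTop atTop :=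
    Real.tendsto_log_atTop.comp hXr
  have hpow : Tendsto (fun X : ℕ => (X : ℝ) ^ (1 / (2 * r : ℝ))) atTop atTop :=
    (tendsto_rpow_atTop (by positivity)).comp hXr
  have hlp : ∀ᶠ X : ℕ in atTop, Real.log X ^ (4 * g) ≤ X := by
    have h := ((isLittleO_log_rpow_rpow_atTop ((4 * g : ℕ) : ℝ) (by norm_num : (0 : ℝ) < 1)).comp_tendsto
      hXr).bound (by norm_num : (0 : ℝ) < 1)
    filter_upwards [h, eventually_ge_atTop 1] with X hX hX1
    have hX1' : (1 : ℝ) ≤ X := by exact_mod_cast hX1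
    have hl := Real.log_nonneg hX1'
    simp only [Function.comp_def, Real.rpow_natCast, Real.rpow_one, one_mul] at hX
    rw [Real.norm_of_nonneg (by positivity), Real.norm_of_nonneg (by positivity)] at hX
    exact hX
  obtain ⟨X₀, hX₀⟩ := eventually_atTop.1 (((hlogt.eventually_ge_atTop 2).and
    (hpow.eventually_ge_atTop ((x0 : ℝ) + 2))).and (hlp.and (eventually_ge_atTop 3)))
  refine ⟨X₀, fun X hX w h hw hne => ?_⟩
  obtain ⟨⟨hlog2, hxp⟩, hl16, hX3⟩ := hX₀ X hX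
  have hX3r : (3 : ℝ) ≤ X := by exact_mod_cast hX3
  have hx00 : (0 : ℝ) ≤ x0 := Nat.cast_nonneg _
  obtain ⟨y, hy⟩ : ∃ y : ℕ, y = ⌊(X : ℝ) ^ (1 / (r : ℝ))⌋₊ := ⟨_, rfl⟩
  obtain ⟨hy1, hy2, -, hy4⟩ := Pool.Agent.W123.RU.level_low r hr2 X (by omega) (by linarith)
  rw [← hy] at hy1 hy2 hy4
  have hyx0 : x0 ≤ y := by
    have : (x0 : ℝ) ≤ y := by linarith
    exact_mod_cast this
  have hyle : (y : ℝ) ≤ (X : ℝ) ^ (1 / (r : ℝ)) := by
    rw [hy]
    exact Nat.floor_le (by positivity)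
  have hyr : (y : ℝ) ^ r ≤ X := by
    calc (y : ℝ) ^ r ≤ ((X : ℝ) ^ (1 / (r : ℝ))) ^ r := pow_le_pow_left₀ (Nat.cast_nonneg _) hyle r
      _ = X := by
        rw [← Real.rpow_natCast, ← Real.rpow_mul (by positivity), one_div,
          inv_mul_cancel₀ hrpos.ne', Real.rpow_one]
  have hyK : y ^ K1 ≤ X := by
    have h1 : y ^ K1 ≤ y ^ r := Nat.pow_le_pow_right (by omega) hrK
    have h2 : y ^ r ≤ X := by exact_mod_cast hyr
    omega
  have hlogy : Real.log y ≤ δ * Real.log X := by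
    have hy0 : (0 : ℝ) < y := by exact_mod_cast (by omega : 0 < y)
    have h1 := Real.log_le_log hy0 hyle
    rw [Real.log_rpow (by linarith)] at h1
    exact h1.trans (mul_le_mul_of_nonneg_right hrδ' (by linarith))
  have hrough : ∀ n : ℕ, Rf F δ X n → ∀ p ∈ pz y, ¬ QF F p n := by
    intro n hn p hp hq
    obtain ⟨hp1, hp2⟩ := mem_pz.1 hp
    obtain ⟨i, hi⟩ := hq
    refine hn i p hp2 ?_ hi
    have h1 : Real.log p ≤ Real.log y :=
      Real.log_le_log (by exact_mod_cast hp2.pos) (by exact_mod_cast hp1)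
    linarith
  have hcard : ((Icc 1 X).filter (fun n => Rf F δ X n ∧ Rf F δ X (n + h))).card ≤
      ((Icc 1 X).filter (fun m => ∀ p ∈ pz y, ¬ Qh (QF F) h p m)).card := by
    apply card_le_card
    intro k hk
    rw [mem_filter] at hk ⊢
    refine ⟨hk.1, fun p hp => ?_⟩
    unfold Qh
    rintro (h1 | h1)
    · exact hrough k hk.2.1 p hp h1
    · exact hrough (k + h) hk.2.2 p hp h1
  have hper : PerB (Qh (QF F) h) (2 * g) := by
    rw [hg]
    exact perB_Qh (QF F) _ (perF F hF) h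
  have hf := (abs_le.1 (hfund X y hyx0 hyK (Qh (QF F) h) hper X)).2
  have hp := hprod w y h hw hne
  have hVy : Vq (QF F) y ≤ C2 / Real.log X ^ g := by
    refine (hV _ hy4).trans ?_
    have h1 : (Real.log X / (2 * r)) ^ g ≤ Real.log y ^ g :=
      pow_le_pow_left₀ (by positivity) hy2 g
    have h0 : 0 < (Real.log X / (2 * r)) ^ g := by positivity
    calc Cv / Real.log y ^ g ≤ Cv / (Real.log X / (2 * r)) ^ g := by
          gcongr
      _ = C2 / Real.log X ^ g := by rw [hC2, div_pow]; field_simp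
  have hV0 : 0 ≤ Vq (QF F) y := Finset.prod_nonneg fun p hp => one_sub_nonneg _ p (mem_pz.1 hp).2
  have hV2 : Vq (QF F) y ^ 2 ≤ C2 ^ 2 / Real.log X ^ (2 * g) := by
    calc Vq (QF F) y ^ 2 ≤ (C2 / Real.log X ^ g) ^ 2 := pow_le_pow_left₀ hV0 hVy 2
      _ = C2 ^ 2 / Real.log X ^ (2 * g) := by rw [div_pow, ← pow_mul, mul_comm g 2]
  obtain ⟨G, hG⟩ : ∃ G : ℝ, G = (Real.log w * gJ w F h) ^ (2 * g) := ⟨_, rfl⟩
  have hG1 : 1 ≤ G := by
    have h1 := one_le_gJ w F h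
    have h2 : 1 ≤ Real.log w := by
      rw [Real.le_log_iff_exp_le (by positivity)]
      have := Real.exp_one_lt_d9
      have : (3 : ℝ) ≤ w := by exact_mod_cast hw
      linarith
    rw [hG]
    apply one_le_pow₀
    nlinarith
  rw [← hG] at hp ⊢
  obtain ⟨L, hL⟩ : ∃ L : ℝ, L = Real.log X := ⟨_, rfl⟩
  rw [← hL] at hlog2 hl16 hV2 ⊢
  have hL0 : 0 < L := by linarith
  have hsq : √(X : ℝ) ≤ X / L ^ (2 * g) := by
    rw [Real.sqrt_le_left (by positivity), div_pow, ← pow_mul, le_div_iff₀ (by positivity)]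
    have h4 : 2 * g * 2 = 4 * g := by ring
    rw [h4]
    calc (X : ℝ) * L ^ (4 * g) ≤ (X : ℝ) * X := mul_le_mul_of_nonneg_left hl16 (by linarith)
      _ = (X : ℝ) ^ 2 := by ring
  obtain ⟨P, hP⟩ : ∃ P : ℝ, P = ∏ p ∈ pz y, (1 - (nuB (Qh (QF F) h) p : ℝ) / p) := ⟨_, rfl⟩
  rw [← hP] at hf hp
  have hP1 : P ≤ C1 * (C2 ^ 2 / L ^ (2 * g) * G) := by
    refine hp.trans ?_
    apply mul_le_mul_of_nonneg_left _ (by linarith)
    apply mul_le_mul_of_nonneg_right hV2 (by linarith)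
  have hcard' : (((Icc 1 X).filter (fun n => Rf F δ X n ∧ Rf F δ X (n + h))).card : ℝ) ≤
      (((Icc 1 X).filter (fun m => ∀ p ∈ pz y, ¬ Qh (QF F) h p m)).card : ℝ) := by
    exact_mod_cast hcard
  have hpos : 0 < X / L ^ (2 * g) := by positivity
  have hfin : (((Icc 1 X).filter (fun m => ∀ p ∈ pz y, ¬ Qh (QF F) h p m)).card : ℝ) ≤
      2 * (X : ℝ) * P + √(X : ℝ) := by
    linarith
  refine hcard'.trans (hfin.trans ?_)
  calc 2 * (X : ℝ) * P + √(X : ℝ) ≤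
        2 * (X : ℝ) * (C1 * (C2 ^ 2 / L ^ (2 * g) * G)) + X / L ^ (2 * g) * G := by
        have h1 : 2 * (X : ℝ) * P ≤ 2 * (X : ℝ) * (C1 * (C2 ^ 2 / L ^ (2 * g) * G)) :=
          mul_le_mul_of_nonneg_left hP1 (by positivity)
        have h2 : √(X : ℝ) ≤ X / L ^ (2 * g) * G := by nlinarith
        linarith
    _ = (2 * C1 * C2 ^ 2 + 1) * (X / L ^ (2 * g)) * G := by ring

end Pool.Agent.K6.H45.EA
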